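import Pool.Agent.Work.MP_8f87b2_h47.Runs5

/-!
# MP_8f87b2_co, HOLE 2: the special case `a = N m`, `m` even, and the existence theorem

`zc` constant `μ + 2`; the classes `zc, v, vp, y2` are taken out and paired by `sp1`, `sp2`. `exists_sch`: **the scheme**.
-/

set_option autoImplicit false

namespace Pool.OddHC

namespace Runs

open Finset

variable {N : ℕ}

section Special

/-- constant -/
def zc (N μ : ℕ) : ZMod N → ℕ := fun _ => μ + 2

def f1 (N μ : ℕ) : ZMod N → ℕ := fun z => if z = 0 then μ + 1 else μ + 2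

def vv (N μ : ℕ) : ZMod N → ℕ := fun z => if z = 0 then μ + 1 else if z = 1 then μ + 3 else μ + 2

def f3 (N μ : ℕ) : ZMod N → ℕ := fun z => if z = 0 then μ else if z = 1 then μ + 3 else μ + 2

def vp (N μ : ℕ) : ZMod N → ℕ := fun z => if z = 0 then μ else if z = 1 then μ + 4 else μ + 2

def f2 (N μ : ℕ) : ZMod N → ℕ := fun z =>
  if z = 0 then μ else if z = 1 then μ + 4 else if z = 2 then μ + 1 else μ + 2

def y2 (N μ : ℕ) : ZMod N → ℕ := fun z =>
  if z = 0 then μ else if z = 1 then μ + 5 else if z = 2 then μ + 1 else μ + 2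

/-- the four classes -/
def Sp (N μ : ℕ) (K : ZMod N → ℕ) : Prop := K = zc N μ ∨ K = vv N μ ∨ K = vp N μ ∨ K = y2 N μ

variable [NeZero N] (hN : 3 ≤ N) (μ : ℕ)

include hN

theorem n10 : (1 : ZMod N) ≠ 0 := one_ne (by omega)

theorem n20 : (2 : ZMod N) ≠ 0 := by
  intro h
  have h1 : ((2 : ℕ) : ZMod N) = ((0 : ℕ) : ZMod N) := by rw [Nat.cast_zero]; exact_mod_cast h
  have := cast_inj (by omega) (by omega) h1
  omega

theorem n21 : (2 : ZMod N) ≠ 1 := by
  intro h
  have h1 : ((2 : ℕ) : ZMod N) = ((1 : ℕ) : ZMod N) := by exact_mod_cast h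
  have := cast_inj (by omega) (by omega) h1
  omega

omit hN in
theorem e10 : ad (f1 N μ) 0 = zc N μ := by
  funext z
  unfold ad f1 zc
  by_cases h0 : z = 0
  · simp only [h0, if_true]
  · simp only [h0, if_false]

theorem e11 : ad (f1 N μ) 1 = vv N μ := by
  have h10 := n10 hN
  funext z
  unfold ad f1 vv
  by_cases h0 : z = 0
  · simp only [h0, if_true, h10.symm, if_false]
  · by_cases h1 : z = 1
    · simp only [h1, h10, if_true, if_false]
    · simp only [h0, h1, if_false]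

omit hN in
theorem e30 : ad (f3 N μ) 0 = vv N μ := by
  funext z
  unfold ad f3 vv
  by_cases h0 : z = 0
  · simp only [h0, if_true]
  · simp only [h0, if_false, add_zero]

theorem e31 : ad (f3 N μ) 1 = vp N μ := by
  have h10 := n10 hN
  funext z
  unfold ad f3 vp
  by_cases h0 : z = 0
  · simp only [h0, if_true, h10.symm, if_false, add_zero]
  · by_cases h1 : z = 1
    · simp only [h1, h10, if_true, if_false]
    · simp only [h0, h1, if_false, add_zero]

theorem e21 : ad (f2 N μ) 1 = y2 N μ := by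
  have h10 := n10 hN
  funext z
  unfold ad f2 y2
  by_cases h0 : z = 0
  · simp only [h0, if_true, h10.symm, if_false, add_zero]
  · by_cases h1 : z = 1
    · simp only [h1, h10, if_true, if_false]
    · simp only [h0, h1, if_false, add_zero]

theorem e22 : ad (f2 N μ) 2 = vp N μ := by
  have h20 := n20 hN
  have h21 := n21 hN
  funext z
  unfold ad f2 vp
  by_cases h0 : z = 0
  · simp only [h0, if_true, h20.symm, if_false, add_zero]
  · by_cases h1 : z = 1
    · rw [if_neg h0, if_pos h1, if_neg (by rw [h1]; exact h21.symm), if_neg h0, if_pos h1]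
    · by_cases h2 : z = 2
      · rw [if_neg h0, if_neg h1, if_pos h2, if_pos h2, if_neg h0, if_neg h1]
      · simp only [h0, h1, h2, if_false, add_zero]

omit hN in
theorem can_zc : Can (zc N μ) := fun _ => Or.inl rfl

omit hN in
theorem can_f1 : Can (f1 N μ) := by
  apply can_of_min
  intro z hz
  unfold f1
  rw [if_pos rfl, if_neg hz]
  omega

omit hN in
theorem can_vv : Can (vv N μ) := by
  apply can_of_min
  intro z hz
  unfold vv
  rw [if_pos rfl, if_neg hz]
  split <;> omega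

omit hN in
theorem can_f3 : Can (f3 N μ) := by
  apply can_of_min
  intro z hz
  unfold f3
  rw [if_pos rfl, if_neg hz]
  split <;> omega

omit hN in
theorem can_vp : Can (vp N μ) := by
  apply can_of_min
  intro z hz
  unfold vp
  rw [if_pos rfl, if_neg hz]
  split <;> omega

omit hN in
theorem can_f2 : Can (f2 N μ) := by
  apply can_of_min
  intro z hz
  unfold f2
  rw [if_pos rfl, if_neg hz]
  split
  · omega
  · split <;> omega

omit hN in
theorem can_y2 : Can (y2 N μ) := by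
  apply can_of_min
  intro z hz
  unfold y2
  rw [if_pos rfl, if_neg hz]
  split
  · omega
  · split <;> omega

omit hN in
theorem Sp.can {K : ZMod N → ℕ} (h : Sp N μ K) : Can K := by
  rcases h with rfl | rfl | rfl | rfl
  · exact can_zc μ
  · exact can_vv μ
  · exact can_vp μ
  · exact can_y2 μ

theorem v10 {K : ZMod N → ℕ} (h : Sp N μ K) : 2 ≤ K 1 := by
  have h10 := n10 hN
  rcases h with rfl | rfl | rfl | rfl
  · change 2 ≤ μ + 2; omega
  · unfold vv; rw [if_neg h10, if_pos rfl]; omega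
  · unfold vp; rw [if_neg h10, if_pos rfl]; omega
  · unfold y2; rw [if_neg h10, if_pos rfl]; omega

/-- `f2 + δ_0` is not canonical -/
theorem not_f20 : ¬ Can (ad (f2 N μ) 0) := by
  intro h
  have h10 := n10 hN
  have h20 := n20 hN
  have h21 := n21 hN
  have k0 : ad (f2 N μ) 0 0 = μ + 1 := by rw [ad_self]; unfold f2; rw [if_pos rfl]
  have k1 : ad (f2 N μ) 0 1 = μ + 4 := by rw [ad_ne _ h10]; unfold f2; rw [if_neg h10, if_pos rfl]
  have k2 : ad (f2 N μ) 0 2 = μ + 1 := by
    rw [ad_ne _ h20]; unfold f2; rw [if_neg h20, if_neg h21, if_pos rfl]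
  have k3 : ad (f2 N μ) 0 (1 + 2) ≤ μ + 2 := by
    have h31 : (1 + 2 : ZMod N) ≠ 1 := by
      intro e
      apply h20
      linear_combination e
    have h32 : (1 + 2 : ZMod N) ≠ 2 := by
      intro e
      apply h10
      linear_combination e
    by_cases h30 : (1 + 2 : ZMod N) = 0
    · rw [h30, k0]; omega
    · rw [ad_ne _ h30]
      unfold f2
      rw [if_neg h30, if_neg h31, if_neg h32]
  rcases h 2 with h1 | ⟨i, hi, h1, h2⟩
  · have h3 := congrFun h1 1
    rw [sh_apply, k1] at h3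
    omega
  · rcases Nat.lt_or_ge 1 i with h3 | h3
    · have h4 := h1 1 h3
      rw [Nat.cast_one, sh_apply, k1] at h4
      omega
    · rcases Nat.eq_zero_or_pos i with h4 | h4
      · subst h4
        rw [Nat.cast_zero, sh_apply, zero_add, k0, k2] at h2
        omega
      · have h5 : i = 1 := by omega
        subst h5
        rw [Nat.cast_one, sh_apply, k1] at h2
        omega

variable (hμ : μ % 2 = 0)

/-- the removed gadget of `zc` -/
noncomputable def g0 (N μ : ℕ) [NeZero N] : Gd N := ⟨.nm, f1 N μ, 0, N + Ze (f1 N μ)⟩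

/-- the removed gadget of `vv`, `vp` -/
def g3 (N μ : ℕ) : Gd N := ⟨.jy, f3 N μ, 0, 0⟩

include hμ

theorem in_g0 : InS (g0 N μ) := by
  have h10 := n10 hN
  refine .zn _ (can_f1 μ) (by rw [e10]; exact can_zc μ) ?_ ?_
  · unfold f1
    rw [if_pos rfl]
    omega
  · rintro ⟨f', h1, h2⟩
    rw [e10] at h1
    have h3 := h2.min 1
    rw [ad_self, ad_ne _ h10] at h3
    have h4 := congrFun h1 0
    have h5 := congrFun h1 1
    rw [ad_ne _ h10.symm] at h4
    rw [ad_self] at h5
    unfold zc at h4 h5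
    omega

omit hN in
theorem in_g3 : InS (g3 N μ) := by
  refine .zy _ (can_f3 μ) (by rw [e30]; exact can_vv μ) ?_
  unfold f3
  rw [if_pos rfl]
  exact hμ

/-- the removed gadget of `y2` -/
theorem ex_g4 : ∃ g4 : Gd N, InS g4 ∧ g4.kd = .nm ∧ (∀ K, K ∈ nc g4 → K = y2 N μ) ∧ y2 N μ ∈ nc g4 ∧
    (g4.f = f2 N μ ∨ Can (ad g4.f 0)) := by
  have h10 := n10 hN
  rcases Nat.eq_zero_or_pos μ with h0 | h0
  · refine ⟨⟨.nm, f2 N μ, 1, N + Ze (f2 N μ)⟩, .run _ 1 1 ⟨can_f2 μ, ?_, le_rfl, le_rfl, ?_⟩ ⟨rfl, rfl, rfl⟩,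
      rfl, ?_, ?_, Or.inl rfl⟩
    · refine ⟨by omega, fun i hi => ?_, ?_⟩
      · have : i = 0 := by omega
        subst this
        rw [Nat.cast_zero]
        change f2 N μ 0 = 0
        unfold f2
        rw [if_pos rfl]
        exact h0
      · rw [Nat.cast_one]
        change 1 ≤ f2 N μ 1
        unfold f2
        rw [if_neg h10, if_pos rfl]
        omega
    · intro p hp
      rcases Nat.eq_zero_or_pos p with h1 | h1
      · subst h1
        rw [Nat.cast_zero]
        exact ⟨fun h => (not_f20 hN μ h).elim, fun h => absurd h (by omega)⟩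
      · have : p = 1 := by omega
        subst this
        rw [Nat.cast_one]
        refine ⟨fun _ => le_rfl, fun _ => ?_⟩
        change Can (ad (f2 N μ) 1)
        rw [e21 hN]
        exact can_y2 μ
    · rintro K ⟨j, hj, rfl⟩
      rw [show j = 1 from hj, Nat.cast_one]
      exact e21 hN μ
    · exact ⟨1, rfl, by rw [Nat.cast_one]; exact (e21 hN μ).symm⟩
  · obtain ⟨f4, h4⟩ := ex_ad (g := y2 N μ) (x := 0) (by unfold y2; rw [if_pos rfl]; exact h0)
    have h40 : f4 0 + 1 = μ := by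
      have := congrFun h4 0
      rw [ad_self] at this
      unfold y2 at this
      rw [if_pos rfl] at this
      exact this
    have hc : Can f4 := by
      apply can_of_min
      intro z hz
      have h5 := (can_y2 (N := N) μ).min z
      have h6 := congrFun h4 z
      have h7 := congrFun h4 0
      rw [ad_ne _ hz] at h6
      rw [ad_self] at h7
      omega
    refine ⟨⟨.nm, f4, 0, N + Ze f4⟩, .zn _ hc (by rw [h4]; exact can_y2 μ) (by omega) ?_, rfl, ?_, ?_,
      Or.inr (by change Can (ad f4 0); rw [h4]; exact can_y2 μ)⟩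
    · rintro ⟨f', h5, h6⟩
      rw [h4, ← e21 hN] at h5
      have := ad_inj h5
      subst this
      exact not_f20 hN μ h6
    · rintro K ⟨j, hj, rfl⟩
      rw [show j = 0 from hj, Nat.cast_zero]
      exact h4
    · exact ⟨0, rfl, by rw [Nat.cast_zero]; exact h4.symm⟩

/-- a gadget which contains one of the four classes contains nothing else -/
theorem bad_nc {g : Gd N} (hg : InS g) {K : ZMod N → ℕ} (hK : K ∈ nc g) (h : Sp N μ K) :
    ∀ K' ∈ nc g, Sp N μ K' := by
  have i0 := in_g0 hN μ hμ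
  have i3 := in_g3 (N := N) μ hμ
  obtain ⟨g4, i4, _, a4, b4, _⟩ := ex_g4 hN μ hμ
  have v3 : ∀ K' ∈ nc (g3 N μ), Sp N μ K' := by
    rintro K' ⟨j, hj, rfl⟩
    rcases hj with hj | hj
    · rw [show j = 0 from hj, Nat.cast_zero]
      exact Or.inr (Or.inl (e30 μ))
    · rw [show j = 1 from hj, Nat.cast_one]
      exact Or.inr (Or.inr (Or.inl (e31 hN μ)))
  rcases h with h | h | h | h
  · have h1 := uniq (by omega) hg i0 hK ⟨0, rfl, by rw [Nat.cast_zero, h]; exact (e10 μ).symm⟩
    subst h1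
    rintro K' ⟨j, hj, rfl⟩
    rw [show j = 0 from hj, Nat.cast_zero]
    exact Or.inl (e10 μ)
  · have h1 := uniq (by omega) hg i3 hK ⟨0, Or.inl rfl, by rw [Nat.cast_zero, h]; exact (e30 μ).symm⟩
    subst h1
    exact v3
  · have h1 := uniq (by omega) hg i3 hK ⟨1, Or.inr rfl, by rw [Nat.cast_one, h]; exact (e31 hN μ).symm⟩
    subst h1
    exact v3
  · rw [h] at hK
    have h1 := uniq (by omega) hg i4 hK b4
    subst h1
    intro K' hK'
    exact Or.inr (Or.inr (Or.inr (a4 K' hK')))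

/-- the lines of the removed gadgets -/
theorem bad_line {g g' : Gd N} (hg : InS g) (hg' : InS g') (hk : g.kd = .jm) (hf : g'.f = g.f)
    {K : ZMod N → ℕ} (hK : K ∈ nc g') (h : Sp N μ K) : g'.f = f2 N μ := by
  have i0 := in_g0 hN μ hμ
  have i3 := in_g3 (N := N) μ hμ
  obtain ⟨g4, i4, c4, a4, b4, d4⟩ := ex_g4 hN μ hμ
  -- a `jm` is never over a line with `Can (f + δ_0)`
  have key : ¬ Can (ad g.f 0) := by
    intro h1
    rcases hg.cases with h2 | ⟨q, l, h2, h3⟩
    · rcases h2.2.2 with h3 | h3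
      · rw [h3.1] at hk
        exact absurd hk (by decide)
      · rw [h3.1] at hk
        exact absurd hk (by decide)
    · exact h2.not0 h1
  rw [← hf] at key
  rcases h with h | h | h | h
  · have h1 := uniq (by omega) hg' i0 hK ⟨0, rfl, by rw [Nat.cast_zero, h]; exact (e10 μ).symm⟩
    subst h1
    exact (key (by change Can (ad (f1 N μ) 0); rw [e10]; exact can_zc μ)).elim
  · have h1 := uniq (by omega) hg' i3 hK ⟨0, Or.inl rfl, by rw [Nat.cast_zero, h]; exact (e30 μ).symm⟩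
    subst h1
    exact (key (by change Can (ad (f3 N μ) 0); rw [e30]; exact can_vv μ)).elim
  · have h1 := uniq (by omega) hg' i3 hK ⟨1, Or.inr rfl, by rw [Nat.cast_one, h]; exact (e31 hN μ).symm⟩
    subst h1
    exact (key (by change Can (ad (f3 N μ) 0); rw [e30]; exact can_vv μ)).elim
  · rw [h] at hK
    have h1 := uniq (by omega) hg' i4 hK b4
    subst h1
    rcases d4 with d4 | d4
    · exact d4
    · exact (key d4).elim

/-- no remaining gadget over `f1` -/
theorem line_f1 {g : Gd N} (hg : InS g) (hA : ∀ K ∈ nc g, ¬ Sp N μ K) : g.f ≠ f1 N μ := by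
  intro hf
  rcases same_line hg (in_g0 hN μ hμ) hf with h1 | ⟨q, l, h1, _, _⟩
  · subst h1
    exact hA (zc N μ) ⟨0, rfl, by rw [Nat.cast_zero]; exact (e10 μ).symm⟩ (Or.inl rfl)
  · rw [hf] at h1
    exact h1.not0 (by rw [e10]; exact can_zc μ)

omit hμ in
/-- no remaining gadget over `f2` -/
theorem line_f2 {g : Gd N} (hg : InS g) (hA : ∀ K ∈ nc g, ¬ Sp N μ K) : g.f ≠ f2 N μ := by
  intro hf
  have h10 := n10 hN
  rcases hg.cases with h1 | ⟨q, l, h1, h2⟩
  · have := h1.1
    rw [hf] at this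
    exact not_f20 hN μ this
  · have hl := h1.l1
    have hlq := h1.lq
    have hq : q = 1 := by
      by_contra h3
      have := h1.fst.zero 1 (by omega)
      rw [hf, Nat.cast_one] at this
      unfold f2 at this
      rw [if_neg h10, if_pos rfl] at this
      omega
    subst hq
    have : l = 1 := by omega
    subst this
    obtain ⟨k, f, p, r⟩ := g
    simp only at hf
    subst hf
    cases k <;> simp only [RG] at h2
    · omega
    · omega
    · omega
    · apply hA (y2 N μ) ⟨1, h2.1.symm, by rw [Nat.cast_one]; exact (e21 hN μ).symm⟩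
      exact Or.inr (Or.inr (Or.inr rfl))

end Special

/-- the first special gadget -/
def sp1 (N μ : ℕ) : Gd N := ⟨.jy, f1 N μ, 0, 0⟩

/-- the second special gadget -/
def sp2 (N μ : ℕ) : Gd N := ⟨.jy, f2 N μ, 1, 0⟩

theorem f1_ne_f2 (μ : ℕ) : f1 N μ ≠ f2 N μ := by
  intro h
  have := congrFun h 0
  unfold f1 f2 at this
  rw [if_pos rfl, if_pos rfl] at this
  omega

/-- the data of a special gadget -/
structure IsSp [NeZero N] (μ : ℕ) (g : Gd N) : Prop where
  kd : g.kd = .jy
  r : g.r = 0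
  can : Can g.f
  ln : (g.f = f1 N μ ∧ g.p = 0) ∨ (g.f = f2 N μ ∧ g.p = 1)
  nc : ∀ K ∈ nc g, Sp N μ K
  own : ∀ j : ℕ, cov g.kd g.p j → Sp N μ (ad g.f (j : ZMod N))
  ex : ∃ x y : ZMod N, ad g.f ((g.p + 1 : ℕ) : ZMod N) x ≠ ad g.f ((g.p + 1 : ℕ) : ZMod N) y

theorem isSp1 [NeZero N] (hN : 3 ≤ N) (μ : ℕ) : IsSp μ (sp1 N μ) := by
  have hown : ∀ j : ℕ, cov (sp1 N μ).kd (sp1 N μ).p j → Sp N μ (ad (sp1 N μ).f (j : ZMod N)) := by
    intro j hj
    rcases hj with hj | hj
    · rw [show j = 0 from hj, Nat.cast_zero]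
      exact Or.inl (e10 μ)
    · rw [show j = 1 from hj, Nat.cast_one]
      exact Or.inr (Or.inl (e11 hN μ))
  refine ⟨rfl, rfl, can_f1 μ, Or.inl ⟨rfl, rfl⟩, ?_, hown, 0, 1, ?_⟩
  · rintro K ⟨j, hj, rfl⟩
    exact hown j hj
  · change ad (f1 N μ) ((0 + 1 : ℕ) : ZMod N) 0 ≠ ad (f1 N μ) ((0 + 1 : ℕ) : ZMod N) 1
    rw [zero_add, Nat.cast_one, e11 hN]
    unfold vv
    rw [if_pos rfl, if_neg (n10 hN), if_pos rfl]
    omega

theorem isSp2 [NeZero N] (hN : 3 ≤ N) (μ : ℕ) : IsSp μ (sp2 N μ) := by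
  have c2 : ((1 + 1 : ℕ) : ZMod N) = 2 := by push_cast; ring
  have hown : ∀ j : ℕ, cov (sp2 N μ).kd (sp2 N μ).p j → Sp N μ (ad (sp2 N μ).f (j : ZMod N)) := by
    intro j hj
    rcases hj with hj | hj
    · rw [show j = 1 from hj, Nat.cast_one]
      exact Or.inr (Or.inr (Or.inr (e21 hN μ)))
    · rw [show j = 1 + 1 from hj, c2]
      exact Or.inr (Or.inr (Or.inl (e22 hN μ)))
  refine ⟨rfl, rfl, can_f2 μ, Or.inr ⟨rfl, rfl⟩, ?_, hown, 0, 1, ?_⟩
  · rintro K ⟨j, hj, rfl⟩
    exact hown j hj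
  · change ad (f2 N μ) ((1 + 1 : ℕ) : ZMod N) 0 ≠ ad (f2 N μ) ((1 + 1 : ℕ) : ZMod N) 1
    rw [c2, e22 hN]
    unfold vp
    rw [if_pos rfl, if_neg (n10 hN), if_pos rfl]
    omega

/-- the new functions of a special gadget against the old function of `nm` -/
theorem sp_nm [NeZero N] (hN : 3 ≤ N) {μ : ℕ} (hμ : μ % 2 = 0) {g g' : Gd N} (hs : IsSp μ g) (hg' : InS g')
    (hA : ∀ K ∈ nc g', ¬ Sp N μ K) (hk : g'.kd = .nm) {G : ZMod N → ℕ} (h : own g G) (h' : old g' G) :
    False := by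
  have n2 := hg'.nmd hk
  unfold old at h'
  rw [hk] at h'
  change G = sh (g'.p : ZMod N) (ad g'.f ((g'.p : ZMod N) - 1)) at h'
  rw [old_eq] at h'
  obtain ⟨j, c, h1, e⟩ := h
  have l1 := line_f1 hN μ hμ hg' hA
  have l2 := line_f2 hN μ hg' hA
  have h10 := n10 hN
  rw [hs.kd] at h1
  -- the bead at `-1` of the line of `g`
  have key : ∀ j : ℕ, c = j + 1 → G = sh (c : ZMod N) (ad g.f (j : ZMod N)) → False := by
    intro j hc e
    have e2 : sh (c : ZMod N) (ad g.f (j : ZMod N)) = ad (sh (c : ZMod N) g.f) (-1) := by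
      rw [hc]
      exact (ad_shm g.f j).symm
    rw [e2, h'] at e
    have h3 := n2.can.eq' hs.can (ad_inj e)
    rcases hs.ln with h4 | h4
    · exact l1 (h3.trans h4.1)
    · exact l2 (h3.trans h4.1)
  simp only [ow] at h1
  rcases h1 with ⟨hj, hc⟩ | ⟨hj, hc⟩ | ⟨hj, hc⟩
  · -- word 0
    rcases hs.ln with ⟨h4, h5⟩ | ⟨h4, h5⟩
    · rw [h4, hj, hc, h5, zero_add, Nat.cast_one, e11 hN] at e
      refine nm_old_own hN n2 (can_vv μ) (c := 1) (.right 0 ?_ rfl) ?_
      · apply zt_fst0 (by omega)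
        unfold vv
        rw [if_pos rfl]
        omega
      · rw [← h', e, Nat.cast_one]
    · -- `sh 2 vp`
      have c2 : ((1 + 1 : ℕ) : ZMod N) = 2 := by push_cast; ring
      rw [h4, hj, hc, h5, c2, e22 hN, ← e31 hN, sh_ad] at e
      rw [show (1 : ZMod N) - 2 = -1 by ring, h'] at e
      have h3 := n2.can.eq' (can_f3 μ) (ad_inj e)
      have h6 : Can (ad g'.f 0) := by
        rw [h3, e30]
        exact can_vv μ
      rcases Nat.eq_zero_or_pos g'.p with h7 | h7
      · have h8 := (n2.z0 h7).2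
        rw [h3] at h8
        unfold f3 at h8
        rw [if_pos rfl] at h8
        omega
      · exact n2.nocan 0 h7 (by rw [Nat.cast_zero]; exact h6)
  · exact key j (by omega) e
  · exact key j (by omega) e

theorem sp_jm [NeZero N] (hN : 3 ≤ N) {μ : ℕ} {g g' : Gd N} (hs : IsSp μ g) (hg' : InS g')
    (hk : g'.kd = .jm) {G : ZMod N → ℕ} (h : own g G) (h' : old g' G) :
    False := by
  unfold old at h'
  rw [hk] at h'
  obtain ⟨h0, e'⟩ := h'
  obtain ⟨q, g1, a1, a2, a3, a4, a5, a6, a7, a8⟩ := jm_old hg' hk h0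
  have hq := a1.lt
  obtain ⟨j, c, h1, e⟩ := h
  have h2 := hs.own j h1.cov
  have h4 : Can (ad g'.f ((g'.p + 2 : ℕ) : ZMod N)) := by
    have := own_can (by omega) a4 (j := g'.p + 2) (by rcases a7 with a7 | a7 <;> rw [a7] <;> exact Or.inl a6.symm)
    rw [a5] at this
    exact this
  have h5 := (Sp.can μ h2).eq' h4 (e.symm.trans e')
  have h6 := v10 hN μ h2
  rw [h5] at h6
  have h7 : ad g'.f ((g'.p + 2 : ℕ) : ZMod N) ((1 : ℕ) : ZMod N) = 0 := by
    rw [ad_ne' _ (by omega) (by omega) (by omega)]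
    exact a1.zero 1 (by omega)
  rw [Nat.cast_one] at h7
  omega

/-- **the special case** -/
theorem csch_sp [NeZero N] (hN : 3 ≤ N) {μ : ℕ} (hμ : μ % 2 = 0) :
    CSch (N := N) (N * (μ + 2)) (fun g => (InS g ∧ (∀ K ∈ nc g, ¬ Sp N μ K) ∧
      ∑ z, g.f z + 1 = N * (μ + 2)) ∨ g = sp1 N μ ∨ g = sp2 N μ) := by
  have s1 := isSp1 hN μ
  have s2 := isSp2 hN μ
  have hsp : ∀ g : Gd N, g = sp1 N μ ∨ g = sp2 N μ → IsSp μ g := by
    rintro g (rfl | rfl)
    · exact s1
    · exact s2
  have hsum1 : ∑ z, zc N μ z = N * (μ + 2) := by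
    unfold zc
    rw [sum_const, card_univ, ZMod.card, smul_eq_mul]
  have hf1 : ∑ z, f1 N μ z + 1 = N * (μ + 2) := by rw [← ad_sum (f1 N μ) 0, e10, hsum1]
  have hf3 : ∑ z, f3 N μ z + 1 = N * (μ + 2) := by
    rw [← ad_sum (f3 N μ) 0, e30, ← e11 hN, ad_sum]
    exact hf1
  have hf2 : ∑ z, f2 N μ z + 1 = N * (μ + 2) := by
    rw [← ad_sum (f2 N μ) 2, e22 hN, ← e31 hN, ad_sum]
    exact hf3
  have hsps : ∀ g : Gd N, g = sp1 N μ ∨ g = sp2 N μ → ∑ z, g.f z + 1 = N * (μ + 2) := by
    rintro g (rfl | rfl)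
    · exact hf1
    · exact hf2
  -- coverage of the four classes
  have hcov : ∀ K, Sp N μ K → ∃ g : Gd N, (g = sp1 N μ ∨ g = sp2 N μ) ∧ K ∈ nc g := by
    have c2 : ((1 + 1 : ℕ) : ZMod N) = 2 := by push_cast; ring
    rintro K (rfl | rfl | rfl | rfl)
    · exact ⟨_, Or.inl rfl, 0, Or.inl rfl, by rw [Nat.cast_zero]; exact (e10 μ).symm⟩
    · exact ⟨_, Or.inl rfl, 1, Or.inr rfl, by rw [Nat.cast_one]; exact (e11 hN μ).symm⟩
    · exact ⟨_, Or.inr rfl, 1 + 1, Or.inr rfl, by rw [c2]; exact (e22 hN μ).symm⟩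
    · exact ⟨_, Or.inr rfl, 1, Or.inl rfl, by rw [Nat.cast_one]; exact (e21 hN μ).symm⟩
  have hne12 : ∀ g g' : Gd N, (g = sp1 N μ ∨ g = sp2 N μ) → (g' = sp1 N μ ∨ g' = sp2 N μ) → g.f = g'.f →
      g = g' := by
    rintro g g' (rfl | rfl) (rfl | rfl) hf
    · rfl
    · exact (f1_ne_f2 μ hf).elim
    · exact (f1_ne_f2 μ hf.symm).elim
    · rfl
  -- a remaining gadget is not over a special line
  have hline : ∀ g g' : Gd N, InS g → (∀ K ∈ nc g, ¬ Sp N μ K) → (g' = sp1 N μ ∨ g' = sp2 N μ) →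
      g.f = g'.f → False := by
    rintro g g' hg hA (rfl | rfl) hf
    · exact line_f1 hN μ hμ hg hA hf
    · exact line_f2 hN μ hg hA hf
  have hcan : ∀ g : Gd N, ((InS g ∧ (∀ K ∈ nc g, ¬ Sp N μ K) ∧
      ∑ z, g.f z + 1 = N * (μ + 2)) ∨ g = sp1 N μ ∨ g = sp2 N μ) → Can g.f := by
    rintro g (hg | hg)
    · exact hg.1.can
    · exact (hsp g hg).can
  have hown : ∀ g : Gd N, ((InS g ∧ (∀ K ∈ nc g, ¬ Sp N μ K) ∧
      ∑ z, g.f z + 1 = N * (μ + 2)) ∨ g = sp1 N μ ∨ g = sp2 N μ) →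
      ∀ j : ℕ, cov g.kd g.p j → Can (ad g.f (j : ZMod N)) := by
    rintro g (hg | hg) j hj
    · exact own_can (by omega) hg.1 hj
    · exact Sp.can μ ((hsp g hg).own j hj)
  have huniq : ∀ g g' : Gd N, ((InS g ∧ (∀ K ∈ nc g, ¬ Sp N μ K) ∧
      ∑ z, g.f z + 1 = N * (μ + 2)) ∨ g = sp1 N μ ∨ g = sp2 N μ) →
      ((InS g' ∧ (∀ K ∈ nc g', ¬ Sp N μ K) ∧
      ∑ z, g'.f z + 1 = N * (μ + 2)) ∨ g' = sp1 N μ ∨ g' = sp2 N μ) → ∀ K, K ∈ nc g → K ∈ nc g' → g = g' := by
    have key : ∀ K, K ∈ nc (sp1 N μ) → K ∈ nc (sp2 N μ) → False := by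
      rintro K ⟨i, hi, rfl⟩ ⟨j, hj, e⟩
      have h10 := n10 hN
      have h20 := n20 hN
      have c2 : ((1 + 1 : ℕ) : ZMod N) = 2 := by push_cast; ring
      have e1 := congrFun e 0
      have e2 : ad (sp1 N μ).f (i : ZMod N) 0 ≥ μ + 1 := by
        have := ad_le (sp1 N μ).f (i : ZMod N) 0
        have h3 : (sp1 N μ).f 0 = μ + 1 := by
          change f1 N μ 0 = _
          unfold f1
          rw [if_pos rfl]
        omega
      have e3 : ad (sp2 N μ).f (j : ZMod N) 0 = μ := by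
        change ad (f2 N μ) (j : ZMod N) 0 = μ
        rcases hj with hj | hj
        · rw [show j = 1 from hj, Nat.cast_one, ad_ne _ h10.symm]
          unfold f2
          rw [if_pos rfl]
        · rw [show j = 1 + 1 from hj, c2, ad_ne _ h20.symm]
          unfold f2
          rw [if_pos rfl]
      omega
    rintro g g' (hg | hg) (hg' | hg') K h h'
    · exact uniq (by omega) hg.1 hg'.1 h h'
    · exact (hg.2.1 K h ((hsp g' hg').nc K h')).elim
    · exact (hg'.2.1 K h' ((hsp g hg).nc K h)).elim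
    · rcases hg with rfl | rfl <;> rcases hg' with rfl | rfl
      · rfl
      · exact (key K h h').elim
      · exact (key K h' h).elim
      · rfl
  -- no old functions of the special gadgets
  have hold : ∀ g : Gd N, (g = sp1 N μ ∨ g = sp2 N μ) → ∀ G, ¬ old g G := by
    rintro g (rfl | rfl) G h
    · exact h
    · exact h
  -- special against remaining
  have hU : ∀ g g' : Gd N, (g = sp1 N μ ∨ g = sp2 N μ) → InS g' → (∀ K ∈ nc g', ¬ Sp N μ K) →
      ∀ G, own g G ∨ old g G → own g' G ∨ old g' G → False := by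
    intro g g' hg hg' hA G h h'
    have hs := hsp g hg
    rcases h with h | h
    swap
    · exact hold g hg G h
    rcases h' with h' | h'
    · obtain ⟨K, h1, h2⟩ := own_nc h
      obtain ⟨K', h3, h4⟩ := own_nc h'
      have h5 : K = K' := by
        have e1 : Can K' := by
          obtain ⟨j, hj, rfl⟩ := h3
          exact own_can (by omega) hg' hj
        exact (Sp.can μ (hs.nc K h1)).rot e1 (h2.trans h4.symm)
      rw [h5] at h1
      exact hA K' h3 (hs.nc K' h1)
    · have hk : g'.kd = .jm ∨ g'.kd = .nm := by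
        obtain ⟨k, f, p, r⟩ := g'
        cases k
        · exact Or.inl rfl
        · exact h'.elim
        · exact h'.elim
        · exact Or.inr rfl
      rcases hk with hk | hk
      · exact sp_jm hN hs hg' hk h h'
      · exact sp_nm hN hμ hs hg' hA hk h h'
  constructor
  · exact hcan
  · rintro g (hg | hg)
    · exact hg.2.2
    · exact hsps g hg
  · rintro g (hg | hg)
    · exact r_bd (by omega) hg.1
    · rw [(hsp g hg).r]
      omega
  · exact hown
  · rintro g (hg | hg) i j hi hj e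
    · exact own_inj' (by omega) hg.1 hi hj e
    · have hs := hsp g hg
      by_contra hij
      rw [hs.kd] at hi hj
      have hp : g.p + 1 < N := by
        rcases hs.ln with h | h
        · omega
        · omega
      have h1 : ∀ i j : ℕ, i < N → j < N → i ≠ j → ad g.f (i : ZMod N) = ad g.f (j : ZMod N) → False := by
        intro i j hi hj hij e
        have := congrFun e i
        rw [ad_self, ad_ne' _ hj hi hij] at this
        omega
      simp only [cov] at hi hj
      exact h1 i j (by omega) (by omega) hij e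
  · rintro g (hg | hg) c j h1 h2 e
    · obtain ⟨h3, h4⟩ := nonc_or (by omega) hg.1 h1 h2 e
      apply hg.2.1 (ad g.f (j : ZMod N)) ⟨j, h1.cov, rfl⟩
      left
      funext z
      rw [h3 z]
      have h5 : N * ad g.f (j : ZMod N) 0 = N * (μ + 2) := by
        rw [← hg.2.2, ← ad_sum g.f (j : ZMod N), sum_congr rfl (fun z _ => h3 z), sum_const, card_univ,
          ZMod.card, smul_eq_mul]
      exact Nat.eq_of_mul_eq_mul_left (by omega) h5
    · have hs := hsp g hg
      rw [hs.kd] at h1 h2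
      simp only [ow] at h1 h2
      have hj : j = g.p + 1 := by omega
      obtain ⟨x, y, hxy⟩ := hs.ex
      rw [← hj] at hxy
      push_cast at e
      have h3 := const_of_sh e.symm
      exact hxy ((h3 x).trans (h3 y).symm)
  · rintro g (hg | hg)
    · exact gap_ok (by omega) hg.1
    · have hs := hsp g hg
      refine ⟨fun _ => ?_, fun hk => ?_, fun hk => ?_⟩
      · rcases hs.ln with h | h
        · rw [h.1, h.2, zero_add, Nat.cast_one]
          unfold f1
          split <;> omega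
        · rw [h.1, h.2]
          have c2 : ((1 + 1 : ℕ) : ZMod N) = 2 := by push_cast; ring
          rw [c2]
          unfold f2
          rw [if_neg (n20 hN), if_neg (n21 hN), if_pos rfl]
          omega
      · rw [hs.kd] at hk
        exact absurd hk (by decide)
      · rw [hs.kd] at hk
        exact absurd hk (by decide)
  · intro K hK hs
    by_cases hA : Sp N μ K
    · obtain ⟨g, h1, h2⟩ := hcov K hA
      exact ⟨g, Or.inr h1, h2⟩
    · obtain ⟨g, h1, h2⟩ := cover (by omega) hK (by rw [hs]; nlinarith)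
      refine ⟨g, Or.inl ⟨h1, ?_, by rw [← nc_sum h2]; exact hs⟩, h2⟩
      intro K' h3 h4
      exact hA (bad_nc hN μ hμ h1 h3 h4 K h2)
  · exact huniq
  · rintro g g' (hg | hg) (hg' | hg') hne Ψ h h'
    · exact P_disj hg.1 hg'.1 hne h h'
    · obtain ⟨c, _, rfl⟩ := h
      obtain ⟨c', _, e⟩ := h'
      exact hline g g' hg.1 hg.2.1 hg' (hg.1.can.eq' (hsp g' hg').can e)
    · obtain ⟨c, _, rfl⟩ := h
      obtain ⟨c', _, e⟩ := h'
      exact hline g' g hg'.1 hg'.2.1 hg (hg'.1.can.eq' (hsp g hg).can e.symm)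
    · obtain ⟨c, _, rfl⟩ := h
      obtain ⟨c', _, e⟩ := h'
      exact hne (hne12 g g' hg hg' ((hsp g hg).can.eq' (hsp g' hg').can e))
  · rintro g g' (hg | hg) (hg' | hg') hne Ψ h h'
    · exact M_disj hg.1 hg'.1 hne h h'
    · obtain ⟨c, _, rfl⟩ := h
      obtain ⟨c', _, e⟩ := h'
      exact hline g g' hg.1 hg.2.1 hg' (hg.1.can.eq' (hsp g' hg').can e)
    · obtain ⟨c, _, rfl⟩ := h
      obtain ⟨c', _, e⟩ := h'
      exact hline g' g hg'.1 hg'.2.1 hg (hg'.1.can.eq' (hsp g hg).can e.symm)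
    · obtain ⟨c, _, rfl⟩ := h
      obtain ⟨c', _, e⟩ := h'
      exact hne (hne12 g g' hg hg' ((hsp g hg).can.eq' (hsp g' hg').can e))
  · rintro g g' (hg | hg) (hg' | hg') hne G h h'
    · exact U_disj hN hg.1 hg'.1 hne h h'
    · exact hU g' g hg' hg.1 hg.2.1 G h' h
    · exact hU g g' hg hg'.1 hg'.2.1 G h h'
    · rcases h with h | h
      swap
      · exact hold g hg G h
      rcases h' with h' | h'
      swap
      · exact hold g' hg' G h'
      obtain ⟨K, h1, h2⟩ := own_nc h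
      obtain ⟨K', h3, h4⟩ := own_nc h'
      have h5 : K = K' := (Sp.can μ ((hsp g hg).nc K h1)).rot (Sp.can μ ((hsp g' hg').nc K' h3))
        (h2.trans h4.symm)
      rw [← h5] at h3
      exact hne (huniq g g' (Or.inr hg) (Or.inr hg') K h1 h3)
  · rintro g (hg | hg) G h
    swap
    · exact (hold g hg G h).elim
    have hpos : 1 ≤ ∑ z, g.f z := by
      have := hg.2.2
      have h3 : 3 * 2 ≤ N * (μ + 2) := Nat.mul_le_mul hN (by omega)
      omega
    obtain ⟨g', h1, h2, K, h3, h4⟩ := old_ex hN hg.1 hpos h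
    by_cases hA : ∀ K ∈ nc g', ¬ Sp N μ K
    · refine ⟨g', Or.inl ⟨h1, hA, ?_⟩, h2, K, h3, h4⟩
      rw [← nc_sum h3, ← h4.sum]
      have hk : ∑ z, G z = ∑ z, g.f z + 1 := by
        obtain ⟨k, f, p, r⟩ := g
        cases k
        · rw [h.2, sh_sum, ad_sum]
        · exact h.elim
        · exact h.elim
        · have h' : G = sh (p : ZMod N) (ad f ((p : ZMod N) - 1)) := h
          rw [h', sh_sum, ad_sum]
      rw [hk]
      exact hg.2.2
    · push Not at hA
      obtain ⟨K', h5, h6⟩ := hA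
      have h7 := bad_nc hN μ hμ h1 h5 h6 K h3
      obtain ⟨g1, h8, h9⟩ := hcov K h7
      refine ⟨g1, Or.inr h8, ?_, K, h9, h4⟩
      rw [(hsp g1 h8).r]
      omega
  · rintro g (hg | hg) hk
    swap
    · rw [(hsp g hg).kd] at hk
      exact absurd hk (by decide)
    obtain ⟨g', h1, h2, h3, h4⟩ := line_exists hg.1 hk
    refine ⟨g', Or.inl ⟨h1, ?_, by rw [h2]; exact hg.2.2⟩, h3, h2, h4⟩
    intro K hK hS
    have h5 := bad_line hN μ hμ hg.1 h1 hk h2 hK hS
    exact line_f2 hN μ hg.1 hg.2.1 (h2.symm.trans h5)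
  · rintro g g' (hg | hg) (hg' | hg') hk hk' hf
    · exact line_uniq hg.1 hg'.1 hf hk hk'
    · exact (hline g g' hg.1 hg.2.1 hg' hf).elim
    · exact (hline g' g hg'.1 hg'.2.1 hg hf.symm).elim
    · exact hne12 g g' hg hg' hf

/-- **THE SCHEME** -/
theorem exists_sch [NeZero N] (hN : 3 ≤ N) {a : ℕ} (ha : 2 ≤ a) :
    ∃ (T : Type) (kd : T → Kd) (F : T → ZMod N → ℕ) (rk : T → ℕ), Sch a kd F rk := by
  by_cases h : ∃ m : ℕ, m % 2 = 0 ∧ a = N * m
  · obtain ⟨m, h1, rfl⟩ := h
    obtain ⟨μ, rfl⟩ : ∃ μ, m = μ + 2 := by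
      refine ⟨m - 2, ?_⟩
      have : m ≠ 0 := by
        rintro rfl
        rw [Nat.mul_zero] at ha
        omega
      omega
    exact ⟨_, _, _, _, (csch_sp hN (μ := μ) (by omega)).sch⟩
  · exact ⟨_, _, _, _, (csch_gen hN ha h).sch⟩

end Runs

end Pool.OddHC
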