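import Pool.Agent.Work.MP_8f87b2_h47.TwoF

/-!
# MP_8f87b2_co: the lift of a legal permutation to a rotation invariant 2-factor of `O_k` (helper47)

`TwoF.lift_factor`: the form with `h1`, `h2` (a cycle of `TT * π` with at most two words contains no moved word).
-/

set_option autoImplicit false

namespace Pool.OddHC

open Finset BinaryTree Equiv Pool.Agent.Work.MP_8f87b2_co

namespace TwoF

variable {k : ℕ} {π : Perm (X k)} {z : X k → ZMod (2 * k + 1)}

/-- two steps do not lead back -/
theorem G_two' (hk : 1 ≤ k) (h2 : ∀ w, (TT * π : Perm (X k)) ((TT * π : Perm (X k)) w) = w →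
    (π w = w ∧ z w = 0) ∧ (π (TT w) = TT w ∧ z (TT w) = 0)) (A : V k) : G π z (G π z A) ≠ A := by
  obtain ⟨w, s, rfl⟩ := vx_surj A
  intro h
  have h0 := h
  rw [G_vx, G_vx] at h0
  obtain ⟨h1, -⟩ := vx_inj h0
  obtain ⟨⟨p1, p2⟩, p3, p4⟩ := h2 w h1
  have e1 : (TT * π : Perm (X k)) w = TT w := by rw [Perm.mul_apply, p1]
  have e2 : (TT * π : Perm (X k)) (TT w) = TT (TT w) := by rw [Perm.mul_apply, p3]
  rw [G_vx, G_vx, e1, e2, p1, p2, p3, p4, zero_add, zero_add] at h
  exact TT_two hk w s h

theorem shift_all {H : SimpleGraph (V k)}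
    (h : ∀ A B, H.Adj (shift k 1 A) (shift k 1 B) ↔ H.Adj A B) (t : ZMod (2 * k + 1)) (A B : V k) :
    H.Adj (shift k t A) (shift k t B) ↔ H.Adj A B := by
  have key : ∀ n : ℕ, ∀ A B, H.Adj (shift k (n : ZMod (2 * k + 1)) A) (shift k (n : ZMod (2 * k + 1)) B) ↔
      H.Adj A B := by
    intro n
    induction n with
    | zero =>
      intro A B
      rw [Nat.cast_zero, shift_zero, shift_zero]
    | succ n ih =>
      intro A B
      have e : ((n + 1 : ℕ) : ZMod (2 * k + 1)) = 1 + n := by push_cast; ring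
      rw [e, ← shift_add, ← shift_add, h, ih]
  have h1 := key t.val A B
  rwa [ZMod.natCast_zmod_val] at h1

end TwoF

open TwoF in
/-- **the 2-factor of a legal permutation** -/
theorem TwoF.lift_factor {k : ℕ} (hk : 1 ≤ k) (π : Perm (X k)) (z : X k → ZMod (2 * k + 1)) (hleg : Legal π z)
    (_h1 : ∀ w, (TT * π : Perm (X k)) w = w → π w = w ∧ z w = 0)
    (h2 : ∀ w, (TT * π : Perm (X k)) ((TT * π : Perm (X k)) w) = w →
      (π w = w ∧ z w = 0) ∧ (π (TT w) = TT w ∧ z (TT w) = 0))
    (S : Finset (X k)) (hS : ∀ w, ∃ r ∈ S, (TT * π : Perm (X k)).SameCycle r w) :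
    ∃ H : SimpleGraph (V k), H ≤ oddGraph k ∧ (∀ A, Nat.card (H.neighborSet A) = 2) ∧
      (∀ t A B, H.Adj (shift k t A) (shift k t B) ↔ H.Adj A B) ∧
      (∃ S' : Finset (V k), S'.card ≤ S.card ∧ ∀ A, ∃ s ∈ S', ∃ t, H.Reachable A (shift k t s)) ∧
      Nat.card H.ConnectedComponent ≤ (2 * k + 1) * S.card := by
  classical
  have hadj := G_adj (z := z) hk hleg.1
  have hne : ∀ A, G π z A ≠ A := fun A h => (hadj A).ne h.symm
  have inv : ∀ A B, (HG (G π z) hne).Adj (shift k 1 A) (shift k 1 B) ↔ (HG (G π z) hne).Adj A B := by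
    intro A B
    have h1 : ∀ C D : V k, shift k 1 D = G π z (shift k 1 C) ↔ D = G π z C := by
      intro C D
      rw [G_shift]
      exact (shift k 1).injective.eq_iff
    constructor
    · rintro (h | h)
      · exact Or.inl ((h1 _ _).1 h)
      · exact Or.inr ((h1 _ _).1 h)
    · rintro (h | h)
      · exact Or.inl ((h1 _ _).2 h)
      · exact Or.inr ((h1 _ _).2 h)
  have rch : ∀ A, ∃ s ∈ S.image (fun r => vx r 0), ∃ t, (HG (G π z) hne).Reachable A (shift k t s) := by
    intro A
    obtain ⟨w, s, rfl⟩ := vx_surj A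
    obtain ⟨r, hr, hs⟩ := hS w
    obtain ⟨n, -, hn⟩ := hs.symm.exists_pow_eq'
    have key : ∀ m : ℕ, ∃ t, ((G π z) ^ m) (vx w s) = vx (((TT * π : Perm (X k)) ^ m) w) t := by
      intro m
      induction m with
      | zero => exact ⟨s, rfl⟩
      | succ m ih =>
        obtain ⟨t, ht⟩ := ih
        rw [pow_succ', Perm.mul_apply, ht, G_vx, pow_succ', Perm.mul_apply]
        exact ⟨_, rfl⟩
    obtain ⟨t, ht⟩ := key n
    refine ⟨vx r 0, mem_image_of_mem _ hr, t, ?_⟩
    rw [shift_vx, zero_add]
    have h2 := HG_reach (G π z) hne n (vx w s)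
    rw [ht, hn] at h2
    exact h2
  refine ⟨HG (G π z) hne, ?_, ?_, shift_all inv, ⟨S.image (fun r => vx r 0), card_image_le, rch⟩, ?_⟩
  · intro A B h
    rcases h with h | h
    · rw [h]
      exact hadj A
    · rw [h]
      exact (hadj B).symm
  · intro A
    have e : (HG (G π z) hne).neighborSet A = {G π z A, (G π z).symm A} := by
      ext B
      rw [SimpleGraph.mem_neighborSet]
      constructor
      · rintro (h | h)
        · exact Or.inl h
        · right
          rw [h]
          exact ((G π z).symm_apply_apply B).symm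
      · rintro (h | h)
        · exact Or.inl h
        · right
          rw [Set.mem_singleton_iff] at h
          rw [h, Equiv.apply_symm_apply]
    rw [Nat.card_coe_set_eq, e, Set.ncard_pair]
    intro h
    have h1 := congrArg (G π z) h
    rw [Equiv.apply_symm_apply] at h1
    exact G_two' hk h2 A h1
  · refine (card_comp rch).trans ?_
    exact Nat.mul_le_mul_left _ card_image_le

end Pool.OddHC
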