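import Mathlib

/-!
# MP_8f87b2_co, HOLE 2: functions on the ring `ZMod N`, minimal rotations

`Can f`: `f` is its lexicographically minimal rotation (as `f 0, ..., f (N-1)`). `Can.line`: taking one bead away from the
first nonempty gap keeps `Can`; `Can.succ`: moving one bead from the first nonempty gap `p` to `p + 1` keeps `Can`
(if `p = 0` or the gap `p` becomes empty).
-/

set_option autoImplicit false

namespace Pool.OddHC

namespace Runs

open Finset

variable {N : ℕ}

/-- rotation -/
def sh (c : ZMod N) (f : ZMod N → ℕ) : ZMod N → ℕ := fun z => f (z + c)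

/-- one more bead -/
def ad (f : ZMod N → ℕ) (x : ZMod N) : ZMod N → ℕ := fun z => f z + if z = x then 1 else 0

theorem sh_apply (c : ZMod N) (f : ZMod N → ℕ) (z : ZMod N) : sh c f z = f (z + c) := rfl

theorem sh_zero (f : ZMod N → ℕ) : sh 0 f = f := by
  funext z
  rw [sh_apply, add_zero]

theorem sh_sh (c d : ZMod N) (f : ZMod N → ℕ) : sh c (sh d f) = sh (c + d) f := by
  funext z
  rw [sh_apply, sh_apply, sh_apply, add_assoc]

theorem sh_ad (c : ZMod N) (f : ZMod N → ℕ) (x : ZMod N) : sh c (ad f x) = ad (sh c f) (x - c) := by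
  funext z
  unfold sh ad
  have : (z + c = x) ↔ (z = x - c) := by
    constructor
    · intro h; rw [← h]; ring
    · intro h; rw [h]; ring
  simp only [this]

theorem sh_inj {c : ZMod N} {f g : ZMod N → ℕ} (h : sh c f = sh c g) : f = g := by
  have h1 := congrArg (sh (-c)) h
  rw [sh_sh, sh_sh, neg_add_cancel, sh_zero, sh_zero] at h1
  exact h1

theorem ad_inj {f g : ZMod N → ℕ} {x : ZMod N} (h : ad f x = ad g x) : f = g := by
  funext z
  have h1 := congrFun h z
  unfold ad at h1
  omega

theorem ad_self (f : ZMod N → ℕ) (x : ZMod N) : ad f x x = f x + 1 := by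
  unfold ad
  rw [if_pos rfl]

theorem ad_ne (f : ZMod N → ℕ) {x z : ZMod N} (h : z ≠ x) : ad f x z = f z := by
  unfold ad
  rw [if_neg h, add_zero]

theorem ad_le (f : ZMod N → ℕ) (x z : ZMod N) : f z ≤ ad f x z := by
  unfold ad
  omega

theorem ad_comm (f : ZMod N → ℕ) (x y : ZMod N) : ad (ad f x) y = ad (ad f y) x := by
  funext z
  unfold ad
  omega

/-- the bead taken away -/
theorem ex_ad {g : ZMod N → ℕ} {x : ZMod N} (h : 1 ≤ g x) : ∃ f, ad f x = g := by
  refine ⟨fun z => g z - if z = x then 1 else 0, ?_⟩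
  funext z
  unfold ad
  by_cases hz : z = x
  · subst hz
    simp only [if_true]
    omega
  · simp only [if_neg hz]
    omega

theorem ad_sum [NeZero N] (f : ZMod N → ℕ) (x : ZMod N) : ∑ z, ad f x z = ∑ z, f z + 1 := by
  unfold ad
  rw [sum_add_distrib, Finset.sum_ite_eq' univ x (fun _ => 1), if_pos (mem_univ _)]

theorem sh_sum [NeZero N] (c : ZMod N) (f : ZMod N → ℕ) : ∑ z, sh c f z = ∑ z, f z :=
  Fintype.sum_equiv (Equiv.addRight c) _ _ (fun _ => rfl)

/-! ### Natural numbers as gaps -/

theorem cast_inj [NeZero N] {i j : ℕ} (hi : i < N) (hj : j < N) (h : (i : ZMod N) = j) : i = j := by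
  have h1 := congrArg ZMod.val h
  rwa [ZMod.val_natCast_of_lt hi, ZMod.val_natCast_of_lt hj] at h1

theorem ad_ne' [NeZero N] (f : ZMod N → ℕ) {x z : ℕ} (hx : x < N) (hz : z < N) (h : z ≠ x) :
    ad f (x : ZMod N) (z : ZMod N) = f z :=
  ad_ne f fun e => h (cast_inj hz hx e)

theorem exists_nat [NeZero N] (z : ZMod N) : ∃ i : ℕ, i < N ∧ (i : ZMod N) = z :=
  ⟨z.val, z.val_lt, ZMod.natCast_zmod_val z⟩

theorem ext_nat [NeZero N] {f g : ZMod N → ℕ} (h : ∀ i : ℕ, i < N → f (i : ZMod N) = g i) : f = g := by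
  funext z
  obtain ⟨i, hi, rfl⟩ := exists_nat z
  exact h i hi

theorem cast_wrap {i c : ℕ} (h : N ≤ i + c) : ((i : ZMod N) + (c : ZMod N)) = ((i + c - N : ℕ) : ZMod N) := by
  have h1 : i + c - N + N = i + c := by omega
  have h2 : ((i + c - N + N : ℕ) : ZMod N) = ((i + c : ℕ) : ZMod N) := by rw [h1]
  push_cast at h2
  rw [ZMod.natCast_self, add_zero] at h2
  rw [h2]

/-! ### The order -/

/-- lexicographic order -/
def Lt (f g : ZMod N → ℕ) : Prop := ∃ i : ℕ, i < N ∧ (∀ j : ℕ, j < i → f (j : ZMod N) = g j) ∧ f (i : ZMod N) < g i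

theorem Lt.asymm {f g : ZMod N → ℕ} (h : Lt f g) (h' : Lt g f) : False := by
  obtain ⟨i, _, h1, h2⟩ := h
  obtain ⟨j, _, h3, h4⟩ := h'
  rcases lt_trichotomy i j with h5 | h5 | h5
  · have := h3 i h5; omega
  · subst h5; omega
  · have := h1 j h5; omega

/-- minimal rotation -/
def Can (f : ZMod N → ℕ) : Prop := ∀ c : ZMod N, f = sh c f ∨ Lt f (sh c f)

theorem Can.eq {f g : ZMod N → ℕ} (hf : Can f) (hg : Can g) {c : ZMod N} (h : g = sh c f) : f = g := by
  rcases hf c with h1 | h1
  · rw [h, ← h1]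
  · have h2 : f = sh (-c) g := by rw [h, sh_sh, neg_add_cancel, sh_zero]
    rcases hg (-c) with h3 | h3
    · rw [h2, ← h3]
    · rw [← h2] at h3
      rw [← h] at h1
      exact (h1.asymm h3).elim

/-- the same class -/
theorem Can.eq' {f g : ZMod N → ℕ} (hf : Can f) (hg : Can g) {c d : ZMod N} (h : sh c f = sh d g) :
    f = g := by
  apply hf.eq hg (c := c - d)
  have h1 := congrArg (sh (-d)) h
  rw [sh_sh, sh_sh, neg_add_cancel, sh_zero] at h1
  rw [← h1]
  congr 1
  ring

theorem exists_can [NeZero N] (f : ZMod N → ℕ) : ∃ c : ZMod N, Can (sh c f) := by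
  obtain ⟨c, hc⟩ := Finite.exists_min (fun c : ZMod N => toLex (fun i : Fin N => f (((i : ℕ) : ZMod N) + c)))
  refine ⟨c, fun d => ?_⟩
  have h1 := hc (d + c)
  rcases eq_or_lt_of_le h1 with h2 | h2
  · left
    rw [sh_sh]
    have h3 := toLex_inj.1 h2
    apply ext_nat
    intro i hi
    exact congrFun h3 ⟨i, hi⟩
  · right
    rw [sh_sh]
    obtain ⟨i, h3, h4⟩ := h2
    exact ⟨i, i.2, fun j hj => h3 ⟨j, hj.trans i.2⟩ hj, h4⟩

/-! ### The first nonempty gap -/

/-- `q` is the first nonempty gap -/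
structure Fst (f : ZMod N → ℕ) (q : ℕ) : Prop where
  lt : q < N
  zero : ∀ i : ℕ, i < q → f (i : ZMod N) = 0
  pos : 1 ≤ f (q : ZMod N)

theorem Fst.uniq {f : ZMod N → ℕ} {q q' : ℕ} (h : Fst f q) (h' : Fst f q') : q = q' := by
  rcases lt_trichotomy q q' with h1 | h1 | h1
  · have := h'.zero q h1; have := h.pos; omega
  · exact h1
  · have := h.zero q' h1; have := h'.pos; omega

theorem exists_fst [NeZero N] {f : ZMod N → ℕ} (h : f ≠ 0) : ∃ q, Fst f q := by
  classical
  have h1 : ∃ i : ℕ, i < N ∧ 1 ≤ f (i : ZMod N) := by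
    by_contra h2
    push Not at h2
    apply h
    apply ext_nat
    intro i hi
    have := h2 i hi
    change f i = 0
    omega
  refine ⟨Nat.find h1, (Nat.find_spec h1).1, fun i hi => ?_, (Nat.find_spec h1).2⟩
  have h3 := Nat.find_min h1 hi
  by_contra h4
  exact h3 ⟨lt_trans hi (Nat.find_spec h1).1, by omega⟩

/-- a function with `q` empty gaps at the beginning is smaller than its rotations by `1, ..., q` -/
theorem lt_of_fst {f : ZMod N → ℕ} {q c : ℕ} (h : Fst f q) (h0 : 1 ≤ c) (hc : c ≤ q) :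
    Lt f (sh (c : ZMod N) f) := by
  have hq := h.lt
  refine ⟨q - c, by omega, fun j hj => ?_, ?_⟩
  · rw [h.zero j (by omega), sh_apply]
    have := h.zero (j + c) (by omega)
    rw [Nat.cast_add] at this
    exact this.symm
  · rw [h.zero (q - c) (by omega), sh_apply]
    have h1 := h.pos
    have h2 : q = q - c + c := by omega
    rw [h2, Nat.cast_add] at h1
    exact h1

/-- **Lemma 1** -/
theorem Can.line [NeZero N] {f : ZMod N → ℕ} {p : ℕ} (hp : p < N) (h : Can (ad f (p : ZMod N)))
    (h0 : ∀ i : ℕ, i < p → f (i : ZMod N) = 0) (hf : f ≠ 0) : Can f := by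
  obtain ⟨q, hq⟩ := exists_fst hf
  have hpq : p ≤ q := by
    by_contra h1
    have := h0 q (by omega)
    have := hq.pos
    omega
  intro c
  obtain ⟨c, hc, rfl⟩ := exists_nat c
  rcases Nat.eq_zero_or_pos c with hc0 | hc0
  · left
    subst hc0
    rw [Nat.cast_zero, sh_zero]
  rcases le_or_gt c q with hcq | hcq
  · exact Or.inr (lt_of_fst hq hc0 hcq)
  right
  -- position of the bead in the rotation: `p - c + N > p`
  have hsh : sh (c : ZMod N) (ad f (p : ZMod N)) = ad (sh c f) ((p + N - c : ℕ) : ZMod N) := by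
    rw [sh_ad]
    congr 1
    rw [Nat.cast_sub (by omega), Nat.cast_add, ZMod.natCast_self, add_zero]
  have key : ∀ j : ℕ, j ≤ p → sh (c : ZMod N) f j = sh (c : ZMod N) (ad f (p : ZMod N)) j := by
    intro j hj
    rw [hsh, ad_ne' _ (by omega) (by omega) (by omega)]
  rcases h c with h1 | ⟨i, hi, h2, h3⟩
  · refine ⟨p, hp, fun j hj => ?_, ?_⟩
    · rw [key j hj.le, ← h1, ad_ne' _ hp (by omega) (by omega)]
    · rw [key p le_rfl, ← h1, ad_self]
      omega
  · rcases lt_or_ge i p with h4 | h4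
    · refine ⟨i, hi, fun j hj => ?_, ?_⟩
      · rw [key j (by omega), ← h2 j hj, ad_ne' _ hp (by omega) (by omega)]
      · rw [key i (by omega)]
        rw [ad_ne' _ hp (by omega) (by omega)] at h3
        exact h3
    · refine ⟨p, hp, fun j hj => ?_, ?_⟩
      · rw [key j hj.le, ← h2 j (by omega), ad_ne' _ hp (by omega) (by omega)]
      · rw [key p le_rfl]
        have h5 : ad f (p : ZMod N) p ≤ sh (c : ZMod N) (ad f (p : ZMod N)) p := by
          rcases eq_or_lt_of_le h4 with h6 | h6
          · subst h6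
            exact h3.le
          · exact (h2 p h6).le
        rw [ad_self] at h5
        omega

/-- the first gap of a minimal rotation is the smallest one -/
theorem Can.min {f : ZMod N → ℕ} (h : Can f) (z : ZMod N) : f 0 ≤ f z := by
  rcases h z with h1 | ⟨i, _, h2, h3⟩
  · have := congrFun h1 0
    rw [sh_apply, zero_add] at this
    exact this.le
  · rcases Nat.eq_zero_or_pos i with h4 | h4
    · subst h4
      rw [sh_apply, Nat.cast_zero, zero_add] at h3
      exact h3.le
    · have := h2 0 h4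
      rw [sh_apply, Nat.cast_zero, zero_add] at this
      exact this.le

/-- in a minimal rotation every window of `q + 1` gaps has a nonempty one -/
theorem Can.window [NeZero N] {f : ZMod N → ℕ} {q : ℕ} (h : Can f) (hq : Fst f q) (c : ZMod N) :
    ∃ i : ℕ, i ≤ q ∧ 1 ≤ f ((i : ZMod N) + c) := by
  rcases h c with h1 | ⟨i, hi, h2, h3⟩
  · have := congrFun h1 q
    rw [sh_apply] at this
    exact ⟨q, le_rfl, by rw [← this]; exact hq.pos⟩
  · rcases lt_or_ge q i with h4 | h4
    · have := h2 q h4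
      rw [sh_apply] at this
      exact ⟨q, le_rfl, by rw [← this]; exact hq.pos⟩
    · refine ⟨i, h4, ?_⟩
      rw [sh_apply] at h3
      omega

/-- **Lemma 2** -/
theorem Can.succ [NeZero N] {f : ZMod N → ℕ} {p : ℕ} (hp : p + 1 < N) (h : Can (ad f (p : ZMod N)))
    (h0 : ∀ i : ℕ, i < p → f (i : ZMod N) = 0) (h1 : p = 0 ∨ f (p : ZMod N) = 0) :
    Can (ad f ((p + 1 : ℕ) : ZMod N)) := by
  rcases Nat.eq_zero_or_pos p with hp0 | hp0
  · -- `p = 0`: strictly smaller first gap
    subst hp0
    intro c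
    obtain ⟨c, hc, rfl⟩ := exists_nat c
    rcases Nat.eq_zero_or_pos c with hc0 | hc0
    · left
      subst hc0
      rw [Nat.cast_zero, sh_zero]
    right
    refine ⟨0, by omega, fun j hj => absurd hj (by omega), ?_⟩
    have h2 := h.min c
    have e0 : ((0 : ℕ) : ZMod N) = 0 := Nat.cast_zero
    rw [e0, sh_apply, zero_add (c : ZMod N)]
    have h3 : ad f ((0 : ℕ) : ZMod N) 0 = f 0 + 1 := by
      rw [Nat.cast_zero]
      exact ad_self f 0
    have h4 : ad f ((0 : ℕ) : ZMod N) c = f c := ad_ne' f (by omega) hc (by omega)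
    rw [h3, h4] at h2
    have h5 : ad f ((0 + 1 : ℕ) : ZMod N) 0 = f 0 := by
      have := ad_ne' f (x := 0 + 1) (z := 0) (by omega) (by omega) (by omega)
      rw [e0] at this
      exact this
    rw [h5]
    have h6 := ad_le f ((0 + 1 : ℕ) : ZMod N) c
    omega
  · have hfp : f (p : ZMod N) = 0 := by
      rcases h1 with h1 | h1
      · omega
      · exact h1
    -- first nonempty gaps
    have hF : Fst (ad f ((p + 1 : ℕ) : ZMod N)) (p + 1) := by
      refine ⟨hp, fun i hi => ?_, ?_⟩
      · rw [ad_ne' _ hp (by omega) (by omega)]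
        rcases Nat.lt_or_ge i p with h2 | h2
        · exact h0 i h2
        · have : i = p := by omega
          rw [this]
          exact hfp
      · rw [ad_self]
        omega
    have hG : Fst (ad f (p : ZMod N)) p := by
      refine ⟨by omega, fun i hi => ?_, ?_⟩
      · rw [ad_ne' _ (by omega) (by omega) (by omega)]
        exact h0 i hi
      · rw [ad_self]
        omega
    intro c
    obtain ⟨c, hc, rfl⟩ := exists_nat c
    rcases Nat.eq_zero_or_pos c with hc0 | hc0
    · left
      subst hc0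
      rw [Nat.cast_zero, sh_zero]
    rcases le_or_gt c (p + 1) with hcq | hcq
    · exact Or.inr (lt_of_fst hF hc0 hcq)
    right
    -- the first nonempty gap of the rotation is `≤ p`
    obtain ⟨i, hi, h3⟩ := h.window hG (c : ZMod N)
    have h4 : ((i : ZMod N) + c) ≠ (p : ZMod N) := by
      intro e
      rcases Nat.lt_or_ge (i + c) N with h5 | h5
      · have e' : ((i + c : ℕ) : ZMod N) = (p : ZMod N) := by rw [← e]; push_cast; rfl
        have := cast_inj h5 (by omega) e'
        omega
      · rw [cast_wrap h5] at e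
        have := cast_inj (by omega) (by omega) e
        omega
    rw [ad_ne _ h4] at h3
    have h6 : 1 ≤ sh (c : ZMod N) (ad f ((p + 1 : ℕ) : ZMod N)) i := by
      rw [sh_apply]
      exact h3.trans (ad_le f _ _)
    classical
    have h7 : ∃ i : ℕ, 1 ≤ sh (c : ZMod N) (ad f ((p + 1 : ℕ) : ZMod N)) i := ⟨i, h6⟩
    have h8 : Nat.find h7 ≤ i := Nat.find_min' h7 h6
    refine ⟨Nat.find h7, by omega, fun j hj => ?_, ?_⟩
    · rw [hF.zero j (by omega)]
      have := Nat.find_min h7 hj
      omega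
    · rw [hF.zero _ (by omega)]
      exact Nat.find_spec h7

end Runs

end Pool.OddHC
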