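import Pool.Agent.Work.MP_8f87b2_h47.Runs0

/-!
# MP_8f87b2_co, HOLE 2: the gadget set

`Gd`: kind, canonical line `f`, position `p`, rank `r`. `InS g`: the gadgets (zero type and run type). `nc g`: the canonical
functions of the new classes. `cover`, `uniq`: every canonical function is new in exactly one gadget.
-/

set_option autoImplicit false

namespace Pool.OddHC

namespace Runs

open Finset

variable {N : ℕ}

/-- kinds: `jm` plain pair, `jy` pair with the E pair, `j5` three classes, `nm` single class -/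
inductive Kd
  | jm
  | jy
  | j5
  | nm
  deriving DecidableEq

/-- gadget -/
structure Gd (N : ℕ) where
  kd : Kd
  f : ZMod N → ℕ
  p : ℕ
  r : ℕ

/-- number of empty gaps -/
noncomputable def Ze [NeZero N] (f : ZMod N → ℕ) : ℕ := (univ.filter fun z => f z = 0).card

/-- run: first nonempty gap `q`, `f + δ_p` canonical iff `l ≤ p` (`p ≤ q`) -/
structure Run (f : ZMod N → ℕ) (q l : ℕ) : Prop where
  can : Can f
  fst : Fst f q
  l1 : 1 ≤ l
  lq : l ≤ q
  iff : ∀ p : ℕ, p ≤ q → (Can (ad f (p : ZMod N)) ↔ l ≤ p)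

/-- the gadgets of a run -/
def RG [NeZero N] (q l : ℕ) (g : Gd N) : Prop := match g.kd with
  | .jm => l ≤ g.p ∧ g.p + 1 ≤ q ∧ (q - g.p) % 2 = 1 ∧
      ((q - l) % 2 = 1 ∧ g.p + 3 ≤ q ∨ (q - l) % 2 = 0 ∧ l + 3 ≤ g.p) ∧ g.r = q - g.p
  | .jy => g.p + 1 = q ∧ (q - l) % 2 = 1 ∧ g.r = 1
  | .j5 => g.p = l ∧ (q - l) % 2 = 0 ∧ l + 2 ≤ q ∧ g.r = 0
  | .nm => g.p = q ∧ l = q ∧ g.r = N + Ze g.f

/-- the gadget set -/
inductive InS [NeZero N] : Gd N → Prop
  | zy (f : ZMod N → ℕ) (h : Can f) (h0 : Can (ad f 0)) (he : f 0 % 2 = 0) : InS ⟨.jy, f, 0, 0⟩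
  | zn (f : ZMod N → ℕ) (h : Can f) (h0 : Can (ad f 0)) (ho : f 0 % 2 = 1)
      (hp : ¬ ∃ f' : ZMod N → ℕ, ad f' 1 = ad f 0 ∧ Can (ad f' 0)) : InS ⟨.nm, f, 0, N + Ze f⟩
  | run (g : Gd N) (q l : ℕ) (h : Run g.f q l) (hg : RG q l g) : InS g

/-- positions of the new classes -/
def cov (k : Kd) (p j : ℕ) : Prop := match k with
  | .jm => j = p ∨ j = p + 1
  | .jy => j = p ∨ j = p + 1
  | .j5 => j = p ∨ j = p + 1 ∨ j = p + 2
  | .nm => j = p

/-- new canonical functions -/
def nc (g : Gd N) : Set (ZMod N → ℕ) := {K | ∃ j : ℕ, cov g.kd g.p j ∧ K = ad g.f (j : ZMod N)}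

/-! ### Basic facts -/

theorem Fst.ad_fst [NeZero N] {f : ZMod N → ℕ} {q p : ℕ} (h : Fst f q) (hp : p ≤ q) :
    Fst (ad f (p : ZMod N)) p := by
  have hq := h.lt
  refine ⟨by omega, fun i hi => ?_, ?_⟩
  · rw [ad_ne' _ (by omega) (by omega) (by omega)]
    exact h.zero i (by omega)
  · rw [ad_self]
    omega

theorem ne_zero_of_fst {f : ZMod N → ℕ} {q : ℕ} (h : Fst f q) : f ≠ 0 := by
  rintro rfl
  have := h.pos
  change 1 ≤ 0 at this
  omega

/-- canonical functions `f + δ_j` with `j` below the first nonempty gap determine `j` and `f` -/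
theorem ad_eq_ad [NeZero N] {f f' : ZMod N → ℕ} {q q' j j' : ℕ} (h : Fst f q) (h' : Fst f' q')
    (hj : j ≤ q) (hj' : j' ≤ q') (e : ad f (j : ZMod N) = ad f' (j' : ZMod N)) : j = j' ∧ f = f' := by
  have h1 := h.ad_fst hj
  have h2 := h'.ad_fst hj'
  rw [← e] at h2
  have h3 := h1.uniq h2
  subst h3
  exact ⟨rfl, ad_inj e⟩

theorem Run.canp {f : ZMod N → ℕ} {q l p : ℕ} (h : Run f q l) (h1 : l ≤ p) (h2 : p ≤ q) :
    Can (ad f (p : ZMod N)) := (h.iff p h2).2 h1

theorem Run.not0 {f : ZMod N → ℕ} {q l : ℕ} (h : Run f q l) : ¬ Can (ad f 0) := by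
  intro h1
  have h2 := (h.iff 0 (Nat.zero_le _)).1 (by rw [Nat.cast_zero]; exact h1)
  have := h.l1
  omega

theorem Run.uniq {f : ZMod N → ℕ} {q l q' l' : ℕ} (h : Run f q l) (h' : Run f q' l') :
    q = q' ∧ l = l' := by
  have e := h.fst.uniq h'.fst
  subst e
  have h1 := (h'.iff l h.lq).1 ((h.iff l h.lq).2 le_rfl)
  have h2 := (h.iff l' h'.lq).1 ((h'.iff l' h'.lq).2 le_rfl)
  exact ⟨rfl, by omega⟩

/-- existence of the run -/
theorem exists_run [NeZero N] {f : ZMod N → ℕ} {q p : ℕ} (hf : Can f) (hq : Fst f q) (hp : p ≤ q)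
    (h : Can (ad f (p : ZMod N))) (h0 : ¬ Can (ad f 0)) : ∃ l, l ≤ p ∧ Run f q l := by
  classical
  have h1 : ∃ l : ℕ, Can (ad f (l : ZMod N)) := ⟨p, h⟩
  have h2 := Nat.find_spec h1
  have h3 : Nat.find h1 ≤ p := Nat.find_min' h1 h
  refine ⟨Nat.find h1, h3, hf, hq, ?_, by omega, fun j hj => ⟨fun h4 => Nat.find_min' h1 h4, ?_⟩⟩
  · by_contra h4
    have h5 : Nat.find h1 = 0 := by omega
    rw [h5, Nat.cast_zero] at h2
    exact h0 h2
  · intro h4
    induction j with
    | zero =>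
      have h5 : Nat.find h1 = 0 := by omega
      rw [h5] at h2
      exact h2
    | succ j ih =>
      rcases Nat.lt_or_ge (Nat.find h1) (j + 1) with h5 | h5
      · have h6 := ih (by omega) (by omega)
        have := hq.lt
        exact h6.succ (by omega) (fun i hi => hq.zero i (by omega)) (Or.inr (hq.zero j (by omega)))
      · have h6 : Nat.find h1 = j + 1 := by omega
        rw [h6] at h2
        exact h2

/-- zero type: all other gaps are larger -/
theorem zt_gt [NeZero N] {f : ZMod N → ℕ} (h : Can (ad f 0)) {z : ZMod N} (hz : z ≠ 0) : f 0 + 1 ≤ f z := by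
  have := h.min z
  rw [ad_self, ad_ne _ hz] at this
  exact this

theorem one_ne [NeZero N] (hN : 2 ≤ N) : (1 : ZMod N) ≠ 0 := by
  intro h
  have h1 : ((1 : ℕ) : ZMod N) = ((0 : ℕ) : ZMod N) := by rw [Nat.cast_one, Nat.cast_zero]; exact h
  have := cast_inj (by omega) (by omega) h1
  omega

theorem zt_fst0 {f : ZMod N → ℕ} (hN : 1 ≤ N) (h : 1 ≤ f 0) : Fst f 0 :=
  ⟨hN, fun i hi => absurd hi (by omega), by rw [Nat.cast_zero]; exact h⟩

theorem zt_fst1 [NeZero N] {f : ZMod N → ℕ} (hN : 2 ≤ N) (h : Can (ad f 0)) (h0 : f 0 = 0) : Fst f 1 := by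
  refine ⟨by omega, fun i hi => ?_, ?_⟩
  · have : i = 0 := by omega
    rw [this, Nat.cast_zero]
    exact h0
  · have := zt_gt h (one_ne hN)
    rw [Nat.cast_one]
    omega

theorem zt_can1 [NeZero N] {f : ZMod N → ℕ} (hN : 2 ≤ N) (h : Can (ad f 0)) : Can (ad f 1) := by
  have h1 := Can.succ (f := f) (p := 0) (by omega) (by rw [Nat.cast_zero]; exact h)
    (fun i hi => absurd hi (by omega)) (Or.inl rfl)
  rw [zero_add, Nat.cast_one] at h1
  exact h1

/-! ### Coverage -/

theorem cover [NeZero N] (hN : 2 ≤ N) {K : ZMod N → ℕ} (hK : Can K) (hs : 2 ≤ ∑ z, K z) :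
    ∃ g, InS g ∧ K ∈ nc g := by
  have hK0 : K ≠ 0 := by
    rintro rfl
    rw [show ∑ z : ZMod N, (0 : ZMod N → ℕ) z = 0 from sum_const_zero] at hs
    omega
  obtain ⟨p, hp⟩ := exists_fst hK0
  obtain ⟨f, rfl⟩ := ex_ad hp.pos
  rw [ad_sum] at hs
  have hf0 : f ≠ 0 := by
    rintro rfl
    rw [show ∑ z : ZMod N, (0 : ZMod N → ℕ) z = 0 from sum_const_zero] at hs
    omega
  have hpN := hp.lt
  have hlow : ∀ i : ℕ, i < p → f (i : ZMod N) = 0 := by
    intro i hi
    have := hp.zero i hi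
    rw [ad_ne' _ hpN (by omega) (by omega)] at this
    exact this
  have hf : Can f := hK.line hpN hlow hf0
  rcases Nat.eq_zero_or_pos p with hp0 | hp0
  · subst hp0
    rw [Nat.cast_zero] at hK ⊢
    rcases Nat.mod_two_eq_zero_or_one (f 0) with he | ho
    · exact ⟨_, .zy f hf hK he, 0, Or.inl rfl, by rw [Nat.cast_zero]⟩
    · by_cases hpr : ∃ f' : ZMod N → ℕ, ad f' 1 = ad f 0 ∧ Can (ad f' 0)
      · obtain ⟨f', h1, h2⟩ := hpr
        have h3 : f' 0 = f 0 + 1 := by
          have := congrFun h1 0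
          rw [ad_ne _ (one_ne hN).symm, ad_self] at this
          exact this
        have h4 : Can f' := by
          have h5 : f' ≠ 0 := by
            rintro rfl
            change 0 = f 0 + 1 at h3
            omega
          exact Can.line (p := 0) (by omega) (by rw [Nat.cast_zero]; exact h2)
            (fun i hi => absurd hi (by omega)) h5
        exact ⟨_, .zy f' h4 h2 (by omega), 1, Or.inr rfl, by rw [Nat.cast_one]; exact h1.symm⟩
      · exact ⟨_, .zn f hf hK ho hpr, 0, rfl, by rw [Nat.cast_zero]⟩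
  · obtain ⟨q, hq⟩ := exists_fst hf0
    have hpq : p ≤ q := by
      by_contra h1
      have := hlow q (by omega)
      have := hq.pos
      omega
    by_cases h0 : Can (ad f 0)
    · have hf00 : f 0 = 0 := by
        have := hlow 0 hp0
        rw [Nat.cast_zero] at this
        exact this
      have h1 := hq.uniq (zt_fst1 hN h0 hf00)
      have h2 : p = 1 := by omega
      subst h2
      exact ⟨_, .zy f hf h0 (by omega), 1, Or.inr rfl, rfl⟩
    · obtain ⟨l, hl, hr⟩ := exists_run hf hq hpq hK h0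
      have h1 := hr.l1
      have h2 := hr.lq
      have h3 := Nat.mod_two_eq_zero_or_one (q - l)
      have h4 := Nat.mod_two_eq_zero_or_one (q - p)
      rcases h3 with h3 | h3
      · rcases Nat.lt_or_ge l q with h5 | h5
        · rcases Nat.lt_or_ge p (l + 3) with h6 | h6
          · exact ⟨_, .run ⟨.j5, f, l, 0⟩ q l hr ⟨rfl, h3, by omega, rfl⟩, p,
              (by omega : p = l ∨ p = l + 1 ∨ p = l + 2), rfl⟩
          · rcases h4 with h4 | h4
            · refine ⟨_, .run ⟨.jm, f, p - 1, q - (p - 1)⟩ q l hr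
                ⟨?_, ?_, ?_, Or.inr ⟨h3, ?_⟩, rfl⟩, p, (by omega : p = p - 1 ∨ p = p - 1 + 1), rfl⟩
              · change l ≤ p - 1; omega
              · change p - 1 + 1 ≤ q; omega
              · change (q - (p - 1)) % 2 = 1; omega
              · change l + 3 ≤ p - 1; omega
            · refine ⟨_, .run ⟨.jm, f, p, q - p⟩ q l hr
                ⟨hl, ?_, h4, Or.inr ⟨h3, h6⟩, rfl⟩, p, (by omega : p = p ∨ p = p + 1), rfl⟩
              change p + 1 ≤ q
              omega
        · have h6 : l = q := by omega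
          exact ⟨_, .run ⟨.nm, f, q, N + Ze f⟩ q l hr ⟨rfl, h6, rfl⟩, p, (by omega : p = q), rfl⟩
      · rcases h4 with h4 | h4
        · rcases Nat.lt_or_ge p q with h5 | h5
          · refine ⟨_, .run ⟨.jm, f, p - 1, q - (p - 1)⟩ q l hr
              ⟨?_, ?_, ?_, Or.inl ⟨h3, ?_⟩, rfl⟩, p, (by omega : p = p - 1 ∨ p = p - 1 + 1), rfl⟩
            · change l ≤ p - 1; omega
            · change p - 1 + 1 ≤ q; omega
            · change (q - (p - 1)) % 2 = 1; omega
            · change p - 1 + 3 ≤ q; omega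
          · refine ⟨_, .run ⟨.jy, f, p - 1, 1⟩ q l hr ⟨?_, h3, rfl⟩, p,
              (by omega : p = p - 1 ∨ p = p - 1 + 1), rfl⟩
            change p - 1 + 1 = q; omega
        · rcases Nat.lt_or_ge (p + 1) q with h5 | h5
          · refine ⟨_, .run ⟨.jm, f, p, q - p⟩ q l hr
              ⟨hl, ?_, h4, Or.inl ⟨h3, ?_⟩, rfl⟩, p, (by omega : p = p ∨ p = p + 1), rfl⟩
            · change p + 1 ≤ q; omega
            · change p + 3 ≤ q; omega
          · refine ⟨_, .run ⟨.jy, f, p, 1⟩ q l hr ⟨?_, h3, rfl⟩, p, (by omega : p = p ∨ p = p + 1), rfl⟩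
            change p + 1 = q; omega

/-! ### Uniqueness -/

/-- positions of the new classes of a gadget of a run -/
theorem RG.pos [NeZero N] {q l j : ℕ} {g : Gd N} (h : RG q l g) (hl : l ≤ q) (hj : cov g.kd g.p j) :
    l ≤ j ∧ j ≤ q := by
  obtain ⟨k, f, p, r⟩ := g
  cases k <;> simp only [RG, cov] at h hj <;> omega

theorem RG.uniq [NeZero N] {q l j : ℕ} {g g' : Gd N} (h : RG q l g) (h' : RG q l g') (hf : g.f = g'.f)
    (hj : cov g.kd g.p j) (hj' : cov g'.kd g'.p j) : g = g' := by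
  obtain ⟨k, f, p, r⟩ := g
  obtain ⟨k', f', p', r'⟩ := g'
  simp only at hf
  subst hf
  cases k <;> cases k' <;> simp only [RG, cov] at h h' hj hj' <;>
    first
      | (exfalso; omega)
      | (obtain rfl : p = p' := by omega
         obtain rfl : r = r' := by omega
         rfl)

/-- **every canonical function is new in at most one gadget** -/
theorem uniq [NeZero N] (hN : 2 ≤ N) {K : ZMod N → ℕ} {g g' : Gd N} (hg : InS g) (hg' : InS g')
    (h : K ∈ nc g) (h' : K ∈ nc g') : g = g' := by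
  -- the three forms
  have key : ∀ g : Gd N, InS g → K ∈ nc g →
      (∃ f, g = ⟨.jy, f, 0, 0⟩ ∧ Can (ad f 0) ∧ f 0 % 2 = 0 ∧ (K = ad f 0 ∨ K = ad f 1)) ∨
      (∃ f, g = ⟨.nm, f, 0, N + Ze f⟩ ∧ Can (ad f 0) ∧ f 0 % 2 = 1 ∧
        (¬ ∃ f' : ZMod N → ℕ, ad f' 1 = ad f 0 ∧ Can (ad f' 0)) ∧ K = ad f 0) ∨
      (∃ q l j, Run g.f q l ∧ RG q l g ∧ cov g.kd g.p j ∧ K = ad g.f (j : ZMod N)) := by
    rintro g hg ⟨j, hj, e⟩
    cases hg with
    | zy f h h0 he =>
      left
      refine ⟨f, rfl, h0, he, ?_⟩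
      rcases hj with hj | hj
      · left; rw [e, hj, Nat.cast_zero]
      · right; rw [e, hj, zero_add, Nat.cast_one]
    | zn f h h0 ho hp =>
      right; left
      refine ⟨f, rfl, h0, ho, hp, ?_⟩
      rw [e, show j = 0 from hj, Nat.cast_zero]
    | run _ q l h hg => exact Or.inr (Or.inr ⟨q, l, j, h, hg, hj, e⟩)
  -- a run position is not a zero-type position
  have zr : ∀ g : Gd N, (∃ q l j, Run g.f q l ∧ RG q l g ∧ cov g.kd g.p j ∧ K = ad g.f (j : ZMod N)) →
      K 0 = 0 ∧ ∀ f, Can (ad f 0) → K ≠ ad f 1 := by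
    rintro g ⟨q, l, j, h1, h2, h3, e⟩
    have h4 := h2.pos h1.lq h3
    have h5 := h1.l1
    have h6 := h1.fst.ad_fst h4.2
    have h7 := h6.zero 0 (by omega)
    rw [Nat.cast_zero, ← e] at h7
    refine ⟨h7, fun f hf e' => ?_⟩
    have h8 : f 0 = 0 := by
      rw [e', ad_ne _ (one_ne hN).symm] at h7
      exact h7
    have h9 := zt_fst1 hN hf h8
    have h10 := h9.ad_fst (p := 1) le_rfl
    rw [← Nat.cast_one (R := ZMod N), e] at e'
    rw [← e'] at h10
    have h11 := h6.uniq h10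
    subst h11
    have h12 := ad_inj e'
    rw [h12] at h1
    exact h1.not0 hf
  rcases key g hg h with h1 | h1 | h1
  · obtain ⟨f, rfl, h2, h3, h4⟩ := h1
    rcases key g' hg' h' with h5 | h5 | h5
    · obtain ⟨f', rfl, h6, h7, h8⟩ := h5
      rcases h4 with h4 | h4 <;> rcases h8 with h8 | h8
      · have := ad_inj (h4.symm.trans h8)
        rw [this]
      · exfalso
        have h9 := congrFun (h4.symm.trans h8) 0
        rw [ad_self, ad_ne _ (one_ne hN).symm] at h9
        omega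
      · exfalso
        have h9 := congrFun (h4.symm.trans h8) 0
        rw [ad_self, ad_ne _ (one_ne hN).symm] at h9
        omega
      · have := ad_inj (h4.symm.trans h8)
        rw [this]
    · obtain ⟨f', rfl, h6, h7, h8, h9⟩ := h5
      exfalso
      rcases h4 with h4 | h4
      · have := ad_inj (h4.symm.trans h9)
        rw [this] at h3
        omega
      · exact h8 ⟨f, h4.symm.trans h9, h2⟩
    · exfalso
      obtain ⟨h6, h7⟩ := zr g' h5
      rcases h4 with h4 | h4
      · rw [h4, ad_self] at h6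
        omega
      · exact h7 f h2 h4
  · obtain ⟨f, rfl, h2, h3, h3', h4⟩ := h1
    rcases key g' hg' h' with h5 | h5 | h5
    · obtain ⟨f', rfl, h6, h7, h8⟩ := h5
      exfalso
      rcases h8 with h8 | h8
      · have := ad_inj (h4.symm.trans h8)
        rw [this] at h3
        omega
      · exact h3' ⟨f', h8.symm.trans h4, h6⟩
    · obtain ⟨f', rfl, h6, h7, h8, h9⟩ := h5
      have := ad_inj (h4.symm.trans h9)
      rw [this]
    · exfalso
      obtain ⟨h6, h7⟩ := zr g' h5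
      rw [h4, ad_self] at h6
      omega
  · rcases key g' hg' h' with h5 | h5 | h5
    · obtain ⟨f', rfl, h6, h7, h8⟩ := h5
      exfalso
      obtain ⟨h9, h10⟩ := zr g h1
      rcases h8 with h8 | h8
      · rw [h8, ad_self] at h9
        omega
      · exact h10 f' h6 h8
    · obtain ⟨f', rfl, h6, h7, h8, h11⟩ := h5
      exfalso
      obtain ⟨h9, h10⟩ := zr g h1
      rw [h11, ad_self] at h9
      omega
    · obtain ⟨q, l, j, a1, a2, a3, a4⟩ := h1
      obtain ⟨q', l', j', b1, b2, b3, b4⟩ := h5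
      have c1 := a2.pos a1.lq a3
      have c2 := b2.pos b1.lq b3
      obtain ⟨c3, c4⟩ := ad_eq_ad a1.fst b1.fst c1.2 c2.2 (a4.symm.trans b4)
      subst c3
      rw [← c4] at b1
      obtain ⟨rfl, rfl⟩ := a1.uniq b1
      exact a2.uniq b2 c4 a3 b3

end Runs

end Pool.OddHC
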