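import Pool.Agent.Work.MP_8f87b2_h47.Runs1

/-!
# MP_8f87b2_co, HOLE 2: disjointness of the words of the gadgets

`Phi g`, `PS g`, `MS g`: the functions of the pure and mixed words. `own g K c`: the words `RF (sh c K)` of the new classes,
`old g W`: the old words of the class. `P_disj`, `M_disj`, `U_disj`.
-/

set_option autoImplicit false

namespace Pool.OddHC

namespace Runs

open Finset

variable {N : ℕ}

/-- the function of the gadget -/
def Phi (g : Gd N) : ZMod N → ℕ := match g.kd with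
  | .jm => sh ((g.p + 1 : ℕ) : ZMod N) g.f
  | .jy => sh ((g.p + 1 : ℕ) : ZMod N) g.f
  | .j5 => sh ((g.p + 2 : ℕ) : ZMod N) g.f
  | .nm => sh (g.p : ZMod N) g.f

/-- shifts of the pure words -/
def pc (k : Kd) (p c : ℕ) (e : Prop) : Prop := match k with
  | .jm => c = p + 1 ∨ (e ∧ c = p + 2)
  | .jy => c = p + 1
  | .j5 => c = p + 1 ∨ c = p + 2
  | .nm => c = p

/-- pure functions -/
def PS (g : Gd N) : Set (ZMod N → ℕ) :=
  {Ψ | ∃ c : ℕ, pc g.kd g.p c (g.f ((g.p + 1 : ℕ) : ZMod N) = 0) ∧ Ψ = sh (c : ZMod N) g.f}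

/-- shifts of the mixed words -/
def mc (k : Kd) (p c : ℕ) (e : Prop) : Prop := match k with
  | .jm => ¬ e ∧ c = p + 2
  | .jy => c = p + 2
  | .j5 => False
  | .nm => c = p + 1

/-- mixed functions -/
def MS (g : Gd N) : Set (ZMod N → ℕ) :=
  {Ψ | ∃ c : ℕ, mc g.kd g.p c (g.f ((g.p + 1 : ℕ) : ZMod N) = 0) ∧ Ψ = sh (c : ZMod N) g.f}

/-- words of the new classes: position and shift -/
def ow (k : Kd) (p j c : ℕ) : Prop := match k with
  | .jm => (j = p + 1 ∧ c = p + 1) ∨ (j = p ∧ c = p + 1) ∨ (j = p + 1 ∧ c = p + 2)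
  | .jy => (j = p + 1 ∧ c = p + 1) ∨ (j = p ∧ c = p + 1) ∨ (j = p + 1 ∧ c = p + 2)
  | .j5 => (j = p + 1 ∧ c = p + 2) ∨ (j = p + 2 ∧ c = p + 2) ∨ (j = p ∧ c = p + 1)
  | .nm => (j = p ∧ c = p) ∨ (j = p ∧ c = p + 1)

theorem ow.cov {k : Kd} {p j c : ℕ} (h : ow k p j c) : cov k p j := by
  cases k <;> simp only [ow, Runs.cov] at h ⊢ <;> omega

/-- new functions -/
def own (g : Gd N) (G : ZMod N → ℕ) : Prop :=
  ∃ j c : ℕ, ow g.kd g.p j c ∧ G = sh (c : ZMod N) (ad g.f (j : ZMod N))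

/-- old functions of the class -/
def old (g : Gd N) (G : ZMod N → ℕ) : Prop := match g.kd with
  | .jm => g.f ((g.p + 1 : ℕ) : ZMod N) = 0 ∧
      G = sh ((g.p + 2 : ℕ) : ZMod N) (ad g.f ((g.p + 2 : ℕ) : ZMod N))
  | .jy => False
  | .j5 => False
  | .nm => G = sh (g.p : ZMod N) (ad g.f ((g.p : ZMod N) - 1))

/-! ### Facts on the gadgets -/

/-- the line is canonical -/
theorem InS.can [NeZero N] {g : Gd N} (h : InS g) : Can g.f := by
  cases h with
  | zy f h h0 he => exact h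
  | zn f h h0 ho hp => exact h
  | run _ q l h hg => exact h.can

/-- zero type -/
def ZT [NeZero N] (g : Gd N) : Prop :=
  Can (ad g.f 0) ∧ g.p = 0 ∧ ((g.kd = .jy ∧ g.f 0 % 2 = 0 ∧ g.r = 0) ∨ (g.kd = .nm ∧ g.f 0 % 2 = 1 ∧ g.r = N + Ze g.f))

theorem InS.cases [NeZero N] {g : Gd N} (h : InS g) : ZT g ∨ ∃ q l, Run g.f q l ∧ RG q l g := by
  cases h with
  | zy f h h0 he => exact Or.inl ⟨h0, rfl, Or.inl ⟨rfl, he, rfl⟩⟩
  | zn f h h0 ho hp => exact Or.inl ⟨h0, rfl, Or.inr ⟨rfl, ho, rfl⟩⟩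
  | run _ q l h hg => exact Or.inr ⟨q, l, h, hg⟩

theorem ZT.eq [NeZero N] {g g' : Gd N} (h : ZT g) (h' : ZT g') (hf : g.f = g'.f) : g = g' := by
  obtain ⟨k, f, p, r⟩ := g
  obtain ⟨k', f', p', r'⟩ := g'
  obtain ⟨h1, h2, h3⟩ := h
  obtain ⟨h1', h2', h3'⟩ := h'
  simp only at hf h2 h2' h3 h3'
  subst hf
  subst h2
  subst h2'
  rcases h3 with ⟨rfl, h4, rfl⟩ | ⟨rfl, h4, rfl⟩ <;> rcases h3' with ⟨rfl, h5, rfl⟩ | ⟨rfl, h5, rfl⟩
  · rfl
  · omega
  · omega
  · rfl

/-- different rotations below the first nonempty gap -/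
theorem sh_ne [NeZero N] {f : ZMod N → ℕ} {q c c' : ℕ} (h : Fst f q) (hc : c ≤ q) (hc' : c' ≤ q)
    (e : sh (c : ZMod N) f = sh (c' : ZMod N) f) : c = c' := by
  have key : ∀ c c' : ℕ, c < c' → c' ≤ q → sh (c : ZMod N) f = sh (c' : ZMod N) f → False := by
    intro c c' h1 h2 e
    have h3 := congrFun e ((q - c' : ℕ) : ZMod N)
    rw [sh_apply, sh_apply, ← Nat.cast_add, ← Nat.cast_add, show q - c' + c' = q by omega] at h3
    have h4 := h.zero (q - c' + c) (by omega)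
    have := h.pos
    omega
  rcases lt_trichotomy c c' with h1 | h1 | h1
  · exact (key c c' h1 hc' e).elim
  · exact h1
  · exact (key c' c h1 hc e.symm).elim

/-- the same line: both of run type or equal -/
theorem same_line [NeZero N] {g g' : Gd N} (hg : InS g) (hg' : InS g') (hf : g.f = g'.f) :
    g = g' ∨ ∃ q l, Run g.f q l ∧ RG q l g ∧ RG q l g' := by
  rcases hg.cases with h1 | ⟨q, l, h1, h2⟩ <;> rcases hg'.cases with h3 | ⟨q', l', h3, h4⟩
  · exact Or.inl (h1.eq h3 hf)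
  · rw [← hf] at h3
    exact (h3.not0 h1.1).elim
  · rw [hf] at h1
    exact (h1.not0 h3.1).elim
  · rw [← hf] at h3
    obtain ⟨rfl, rfl⟩ := h1.uniq h3
    exact Or.inr ⟨q, l, h1, h2, h4⟩

theorem RG.ext [NeZero N] {q l : ℕ} {g g' : Gd N} (h : RG q l g) (h' : RG q l g') (hf : g.f = g'.f)
    (hk : g.kd = g'.kd) (hp : g.p = g'.p) : g = g' := by
  obtain ⟨k, f, p, r⟩ := g
  obtain ⟨k', f', p', r'⟩ := g'
  simp only at hf hk hp
  subst hf
  subst hk
  subst hp
  have : r = r' := by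
    cases k <;> simp only [RG] at h h' <;> omega
  rw [this]

/-- **P** -/
theorem P_disj [NeZero N] {g g' : Gd N} (hg : InS g) (hg' : InS g') (hne : g ≠ g')
    {Ψ : ZMod N → ℕ} (h : Ψ ∈ PS g) (h' : Ψ ∈ PS g') : False := by
  obtain ⟨c, hc, rfl⟩ := h
  obtain ⟨c', hc', e⟩ := h'
  have hf := hg.can.eq' hg'.can e
  rcases same_line hg hg' hf with h1 | ⟨q, l, h1, h2, h3⟩
  · exact hne h1
  rw [← hf] at e
  have hq := h1.fst
  have hl := h1.lq
  -- the second shift is `≤ q`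
  have hz : g.f ((g.p + 1 : ℕ) : ZMod N) = 0 → g.p + 1 ≤ q → g.p + 2 ≤ q := by
    intro h4 h5
    rcases Nat.lt_or_ge (g.p + 1) q with h6 | h6
    · omega
    · have h7 : g.p + 1 = q := by omega
      rw [h7] at h4
      have := hq.pos
      omega
  have hz' : g'.f ((g'.p + 1 : ℕ) : ZMod N) = 0 → g'.p + 1 ≤ q → g'.p + 2 ≤ q := by
    intro h4 h5
    rcases Nat.lt_or_ge (g'.p + 1) q with h6 | h6
    · omega
    · have h7 : g'.p + 1 = q := by omega
      rw [h7, ← hf] at h4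
      have := hq.pos
      omega
  have hb : c ≤ q := by
    obtain ⟨k, f, p, r⟩ := g
    cases k <;> simp only [RG, pc] at h2 hc hz <;> omega
  have hb' : c' ≤ q := by
    obtain ⟨k, f, p, r⟩ := g'
    cases k <;> simp only [RG, pc] at h3 hc' hz' <;> omega
  have hcc := sh_ne hq hb hb' e
  subst hcc
  apply hne
  obtain ⟨k, f, p, r⟩ := g
  obtain ⟨k', f', p', r'⟩ := g'
  simp only at hf
  subst hf
  cases k <;> cases k' <;> simp only [RG, pc] at h2 h3 hc hc' <;>
    first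
      | (exfalso; omega)
      | (obtain rfl : p = p' := by omega
         obtain rfl : r = r' := by omega
         rfl)

/-- **M** -/
theorem M_disj [NeZero N] {g g' : Gd N} (hg : InS g) (hg' : InS g') (hne : g ≠ g')
    {Ψ : ZMod N → ℕ} (h : Ψ ∈ MS g) (h' : Ψ ∈ MS g') : False := by
  obtain ⟨c, hc, rfl⟩ := h
  obtain ⟨c', hc', e⟩ := h'
  have hf := hg.can.eq' hg'.can e
  rcases same_line hg hg' hf with h1 | ⟨q, l, h1, h2, h3⟩
  · exact hne h1
  have hq := h1.fst
  have hl := h1.lq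
  have hz : ¬ g.f ((g.p + 1 : ℕ) : ZMod N) = 0 → g.p + 1 ≤ q → g.p + 1 = q := by
    intro h4 h5
    by_contra h6
    exact h4 (hq.zero _ (by omega))
  have hz' : ¬ g'.f ((g'.p + 1 : ℕ) : ZMod N) = 0 → g'.p + 1 ≤ q → g'.p + 1 = q := by
    intro h4 h5
    by_contra h6
    rw [← hf] at h4
    exact h4 (hq.zero _ (by omega))
  apply hne
  obtain ⟨k, f, p, r⟩ := g
  obtain ⟨k', f', p', r'⟩ := g'
  simp only at hf hz hz'
  subst hf
  cases k <;> cases k' <;> simp only [RG, mc] at h2 h3 hc hc' <;>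
    first
      | (exfalso; omega)
      | (obtain rfl : p = p' := by omega
         obtain rfl : r = r' := by omega
         rfl)

/-- **lines**: two gadgets over the same line are of kind `jm` or equal -/
theorem line_uniq [NeZero N] {g g' : Gd N} (hg : InS g) (hg' : InS g') (hf : g.f = g'.f)
    (hk : g.kd ≠ .jm) (hk' : g'.kd ≠ .jm) : g = g' := by
  rcases same_line hg hg' hf with h1 | ⟨q, l, h1, h2, h3⟩
  · exact h1
  obtain ⟨k, f, p, r⟩ := g
  obtain ⟨k', f', p', r'⟩ := g'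
  simp only at hf
  subst hf
  cases k <;> cases k' <;> simp only [RG] at h2 h3 <;>
    first
      | exact absurd rfl hk
      | exact absurd rfl hk'
      | (exfalso; omega)
      | (obtain rfl : p = p' := by omega
         obtain rfl : r = r' := by omega
         rfl)

/-- **lines**: over the line of a `jm` there is a gadget of another kind with smaller rank -/
theorem line_exists [NeZero N] {g : Gd N} (hg : InS g) (hk : g.kd = .jm) :
    ∃ g', InS g' ∧ g'.f = g.f ∧ g'.kd ≠ .jm ∧ g'.r < g.r := by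
  rcases hg.cases with h1 | ⟨q, l, h1, h2⟩
  · rcases h1.2.2 with h3 | h3
    · rw [h3.1] at hk
      exact absurd hk (by decide)
    · rw [h3.1] at hk
      exact absurd hk (by decide)
  obtain ⟨k, f, p, r⟩ := g
  simp only at hk
  subst hk
  simp only [RG] at h2
  obtain ⟨h3, h4, h5, h6, h7⟩ := h2
  rcases h6 with h6 | h6
  · refine ⟨⟨.jy, f, q - 1, 1⟩, .run _ q l h1 ⟨?_, h6.1, rfl⟩, rfl, by simp, ?_⟩
    · change q - 1 + 1 = q; omega
    · change 1 < r; omega
  · refine ⟨⟨.j5, f, l, 0⟩, .run _ q l h1 ⟨rfl, h6.1, by omega, rfl⟩, rfl, by simp, ?_⟩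
    change 0 < r
    omega

end Runs

end Pool.OddHC
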