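import Pool.Agent.Work.MP_8f87b2_h47.Runs2

/-!
# MP_8f87b2_co, HOLE 2: disjointness of the words of the class, ranks

`U_disj`: the functions `own g`, `old g` of different gadgets are different. `old_rank`: the class of an old function is new in a
gadget of smaller rank.
-/

set_option autoImplicit false

namespace Pool.OddHC

namespace Runs

open Finset

variable {N : ℕ}

/-! ### The place of the star of a new word -/

/-- the star of `sh c K` -/
inductive OT [NeZero N] (K : ZMod N → ℕ) (c : ℕ) : Prop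
  | right (p : ℕ) (h : Fst K p) (e : c = p + 1) : OT K c
  | left (p : ℕ) (h : Fst K p) (h1 : 1 ≤ p) (e : c = p) : OT K c
  | two (f : ZMod N → ℕ) (h : Can f) (he : f 0 % 2 = 0) (h1 : 2 ≤ f 0) (e : K = ad f 1) (ec : c = 2) : OT K c
  | zero (he : K 0 % 2 = 0) (h1 : 2 ≤ K 0) (e : c = 0) : OT K c

theorem own_can [NeZero N] (hN : 2 ≤ N) {g : Gd N} (hg : InS g) {j : ℕ} (hj : cov g.kd g.p j) :
    Can (ad g.f (j : ZMod N)) := by
  rcases hg.cases with h1 | ⟨q, l, h1, h2⟩
  · obtain ⟨k, f, p, r⟩ := g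
    obtain ⟨h3, h4, h5⟩ := h1
    simp only at h3 h4 h5 hj ⊢
    subst h4
    rcases h5 with ⟨rfl, _⟩ | ⟨rfl, _⟩
    · rcases hj with hj | hj
      · rw [hj, Nat.cast_zero]
        exact h3
      · rw [hj, zero_add, Nat.cast_one]
        exact zt_can1 hN h3
    · rw [show j = 0 from hj, Nat.cast_zero]
      exact h3
  · have h3 := h2.pos h1.lq hj
    exact h1.canp h3.1 h3.2

theorem own_OT [NeZero N] (hN : 2 ≤ N) {g : Gd N} (hg : InS g) {j c : ℕ} (h : ow g.kd g.p j c) :
    OT (ad g.f (j : ZMod N)) c := by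
  rcases hg.cases with h1 | ⟨q, l, h1, h2⟩
  · have hcan := hg.can
    obtain ⟨k, f, p, r⟩ := g
    obtain ⟨h3, h4, h5⟩ := h1
    simp only at h3 h4 h5 h hcan ⊢
    subst h4
    have hF0 : Fst (ad f 0) 0 := zt_fst0 (by omega) (by rw [ad_self]; omega)
    rcases h5 with ⟨rfl, h6, _⟩ | ⟨rfl, h6, _⟩
    · -- `jy`
      simp only [ow] at h
      rcases Nat.eq_zero_or_pos (f 0) with h7 | h7
      · have hF1 : Fst (ad f ((1 : ℕ) : ZMod N)) 1 := (zt_fst1 hN h3 h7).ad_fst le_rfl
        rcases h with ⟨rfl, rfl⟩ | ⟨rfl, rfl⟩ | ⟨rfl, rfl⟩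
        · rw [zero_add]
          exact .left 1 hF1 le_rfl rfl
        · rw [Nat.cast_zero, zero_add]
          exact .right 0 hF0 rfl
        · rw [zero_add, zero_add]
          exact .right 1 hF1 rfl
      · have hF1 : Fst (ad f 1) 0 := by
          apply zt_fst0 (by omega)
          exact h7.trans_le (ad_le f 1 0)
        rcases h with ⟨rfl, rfl⟩ | ⟨rfl, rfl⟩ | ⟨rfl, rfl⟩
        · rw [zero_add, Nat.cast_one]
          exact .right 0 hF1 rfl
        · rw [Nat.cast_zero, zero_add]
          exact .right 0 hF0 rfl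
        · rw [zero_add, zero_add, Nat.cast_one]
          exact .two f hcan h6 (by omega) rfl rfl
    · simp only [ow] at h
      rcases h with ⟨rfl, rfl⟩ | ⟨rfl, rfl⟩
      · rw [Nat.cast_zero]
        exact .zero (by rw [ad_self]; omega) (by rw [ad_self]; omega) rfl
      · rw [Nat.cast_zero, zero_add]
        exact .right 0 hF0 rfl
  · have h3 := h2.pos h1.lq h.cov
    have h4 := h1.fst.ad_fst h3.2
    have h5 := h1.l1
    rcases Nat.lt_or_ge j c with h6 | h6
    · have : c = j + 1 := by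
        obtain ⟨k, f, p, r⟩ := g
        cases k <;> simp only [ow] at h <;> omega
      exact .right j h4 this
    · have : c = j := by
        obtain ⟨k, f, p, r⟩ := g
        cases k <;> simp only [ow] at h <;> omega
      exact .left j h4 (by omega) this

/-! ### The old word of `nm` -/

theorem neg_one_cast [NeZero N] {c : ℕ} (hc : 1 ≤ c) : (-1 : ZMod N) + (c : ZMod N) = ((c - 1 : ℕ) : ZMod N) := by
  rw [Nat.cast_sub hc, Nat.cast_one]
  ring

theorem old_eq (f : ZMod N → ℕ) (q : ZMod N) : sh q (ad f (q - 1)) = ad (sh q f) (-1) := by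
  rw [sh_ad]
  congr 1
  ring

/-- a constant function -/
theorem const_of_sh [NeZero N] {f : ZMod N → ℕ} {c : ZMod N} (h : sh (c + 1) f = sh c f) (z : ZMod N) : f z = f 0 := by
  have h1 : ∀ z : ZMod N, f (z + 1) = f z := by
    intro z
    have h2 := congrFun h (z - c)
    rw [sh_apply, sh_apply] at h2
    rw [show z - c + (c + 1) = z + 1 by ring, show z - c + c = z by ring] at h2
    exact h2
  have h3 : ∀ i : ℕ, f (i : ZMod N) = f 0 := by
    intro i
    induction i with
    | zero => rw [Nat.cast_zero]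
    | succ i ih => rw [Nat.cast_add, Nat.cast_one, h1, ih]
  obtain ⟨i, _, rfl⟩ := exists_nat z
  exact h3 i

/-- the data of an `nm` gadget -/
structure NMd [NeZero N] (f : ZMod N → ℕ) (q : ℕ) : Prop where
  can : Can f
  fst : Fst f q
  /-- no shorter run -/
  nocan : ∀ p : ℕ, p < q → ¬ Can (ad f (p : ZMod N))
  z0 : q = 0 → Can (ad f 0) ∧ f 0 % 2 = 1

theorem InS.nmd [NeZero N] {g : Gd N} (hg : InS g) (hk : g.kd = .nm) : NMd g.f g.p := by
  have hcan := hg.can
  rcases hg.cases with h1 | ⟨q, l, h1, h2⟩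
  · obtain ⟨k, f, p, r⟩ := g
    obtain ⟨h3, h4, h5⟩ := h1
    simp only at h3 h4 h5 hk hcan ⊢
    subst h4
    subst hk
    rcases h5 with ⟨h5, _⟩ | ⟨_, h6, _⟩
    · exact absurd h5 (by decide)
    · exact ⟨hcan, zt_fst0 (Nat.pos_of_ne_zero (NeZero.ne N)) (by omega), fun p hp => absurd hp (by omega),
        fun _ => ⟨h3, h6⟩⟩
  · obtain ⟨k, f, p, r⟩ := g
    simp only at hk h1 hcan ⊢
    subst hk
    simp only [RG] at h2
    obtain ⟨rfl, rfl, _⟩ := h2
    refine ⟨hcan, h1.fst, fun p hp h3 => ?_, fun h3 => ?_⟩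
    · have := (h1.iff p hp.le).1 h3
      omega
    · have := h1.l1
      omega

/-- the old function of an `nm` gadget is not a new function -/
theorem nm_old_own [NeZero N] (hN : 3 ≤ N) {f K : ZMod N → ℕ} {q c : ℕ} (h : NMd f q) (hK : Can K)
    (hc : OT K c) (e : ad (sh (q : ZMod N) f) (-1) = sh (c : ZMod N) K) : False := by
  have hv := congrFun e (-1)
  rw [ad_self, sh_apply, sh_apply] at hv
  have hqN := h.fst.lt
  have h10 : (1 : ZMod N) ≠ 0 := one_ne (by omega)
  have hm0 : (-1 : ZMod N) ≠ 0 := neg_ne_zero.2 h10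
  have hf0 : f ≠ 0 := ne_zero_of_fst h.fst
  cases hc with
  | right p hp ec =>
    subst ec
    -- take away the bead
    obtain ⟨K', rfl⟩ := ex_ad hp.pos
    have h1 : sh ((p + 1 : ℕ) : ZMod N) (ad K' (p : ZMod N)) = ad (sh ((p + 1 : ℕ) : ZMod N) K') (-1) := by
      rw [sh_ad]
      congr 1
      push_cast
      ring
    rw [h1] at e
    have h2 := ad_inj e
    have hpN := hp.lt
    have hlow : ∀ i : ℕ, i < p → K' (i : ZMod N) = 0 := by
      intro i hi
      have := hp.zero i hi
      rw [ad_ne' _ hpN (by omega) (by omega)] at this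
      exact this
    have hK'0 : K' ≠ 0 := by
      rintro rfl
      apply hf0
      funext z
      have := congrFun h2 (z - q)
      rw [sh_apply, sh_apply] at this
      rw [show z - (q : ZMod N) + q = z by ring] at this
      exact this
    have hK' : Can K' := hK.line hpN hlow hK'0
    have h3 := h.can.eq' hK' h2
    subst h3
    rcases Nat.lt_or_ge p q with h4 | h4
    · exact h.nocan p h4 hK
    · have h5 : p = q := by
        by_contra h6
        have := hlow q (by omega)
        have := h.fst.pos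
        omega
      subst h5
      push_cast at h2
      have h6 := const_of_sh h2.symm
      rcases Nat.eq_zero_or_pos p with h7 | h7
      · subst h7
        obtain ⟨h8, _⟩ := h.z0 rfl
        have := zt_gt h8 h10
        have := h6 1
        omega
      · have h8 := h.fst.zero 0 h7
        have h9 := h.fst.pos
        rw [h6, ← h6 ((0 : ℕ) : ZMod N), h8] at h9
        omega
  | left p hp h1 ec =>
    subst ec
    rw [neg_one_cast h1] at hv
    have := hp.zero (c - 1) (by omega)
    omega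
  | two f' h' he h1 e' ec =>
    subst ec
    rw [e'] at e
    have h2 : sh ((2 : ℕ) : ZMod N) (ad f' 1) = ad (sh ((2 : ℕ) : ZMod N) f') (-1) := by
      rw [sh_ad]
      congr 1
      push_cast
      ring
    rw [h2] at e
    have h3 := h.can.eq' h' (ad_inj e)
    subst h3
    rcases Nat.eq_zero_or_pos q with h4 | h4
    · have := (h.z0 h4).2
      omega
    · have := h.fst.zero 0 h4
      rw [Nat.cast_zero] at this
      omega
  | zero he h1 ec =>
    subst ec
    rw [Nat.cast_zero, sh_zero] at e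
    rcases Nat.eq_zero_or_pos q with h4 | h4
    · subst h4
      have h5 := congrFun e 0
      rw [ad_ne _ hm0.symm, sh_apply, Nat.cast_zero, zero_add] at h5
      have := (h.z0 rfl).2
      omega
    · -- the empty gap `0` of `f` is the gap `-q`
      have h5 : ∀ z : ZMod N, 2 ≤ K z := fun z => h1.trans (hK.min z)
      have h6 := congrFun e (-(q : ZMod N))
      have h7 := h.fst.zero 0 h4
      rw [Nat.cast_zero] at h7
      have h8 : ad (sh (q : ZMod N) f) (-1) (-(q : ZMod N)) ≤ sh (q : ZMod N) f (-(q : ZMod N)) + 1 := by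
        unfold ad
        split <;> omega
      rw [sh_apply, neg_add_cancel, h7] at h8
      have := h5 (-(q : ZMod N))
      omega

/-! ### Disjointness -/

theorem nonconst [NeZero N] {K : ZMod N → ℕ} {p : ℕ} (h : Fst K p) (hp : 1 ≤ p) {c : ZMod N}
    (e : sh (c + 1) K = sh c K) : False := by
  have h1 := const_of_sh e
  have h2 := h.zero 0 hp
  have h3 := h.pos
  rw [h1, ← h1 ((0 : ℕ) : ZMod N), h2] at h3
  omega

/-- the old function of a `jm` : the gadget of its class -/
theorem jm_old [NeZero N] {g : Gd N} (hg : InS g) (hk : g.kd = .jm)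
    (h0 : g.f ((g.p + 1 : ℕ) : ZMod N) = 0) :
    ∃ (q : ℕ) (g' : Gd N), Fst g.f q ∧ g.p + 2 < q ∧ 1 ≤ g.p ∧ InS g' ∧ g'.f = g.f ∧ g'.p = g.p + 2 ∧
      (g'.kd = .jm ∨ g'.kd = .jy) ∧ g'.r < g.r := by
  rcases hg.cases with h1 | ⟨q, l, h1, h2⟩
  · rcases h1.2.2 with h3 | h3
    · rw [h3.1] at hk
      exact absurd hk (by decide)
    · rw [h3.1] at hk
      exact absurd hk (by decide)
  obtain ⟨k, f, p, r⟩ := g
  simp only at hk h0 h1 ⊢
  subst hk
  simp only [RG] at h2
  obtain ⟨h3, h4, h5, h6, h7⟩ := h2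
  have h8 : p + 1 ≠ q := by
    intro e
    rw [e] at h0
    have := h1.fst.pos
    omega
  have h9 := h1.l1
  rcases h6 with h6 | h6
  · rcases Nat.lt_or_ge (p + 3) q with h10 | h10
    · refine ⟨q, ⟨.jm, f, p + 2, q - (p + 2)⟩, h1.fst, by omega, by omega, .run _ q l h1 ⟨?_, ?_, ?_,
        Or.inl ⟨h6.1, ?_⟩, rfl⟩, rfl, rfl, Or.inl rfl, ?_⟩
      · change l ≤ p + 2; omega
      · change p + 2 + 1 ≤ q; omega
      · change (q - (p + 2)) % 2 = 1; omega
      · change p + 2 + 3 ≤ q; omega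
      · change q - (p + 2) < r; omega
    · refine ⟨q, ⟨.jy, f, p + 2, 1⟩, h1.fst, by omega, by omega, .run _ q l h1 ⟨?_, h6.1, rfl⟩, rfl, rfl,
        Or.inr rfl, ?_⟩
      · change p + 2 + 1 = q; omega
      · change 1 < r; omega
  · refine ⟨q, ⟨.jm, f, p + 2, q - (p + 2)⟩, h1.fst, by omega, by omega, .run _ q l h1 ⟨?_, ?_, ?_,
      Or.inr ⟨h6.1, ?_⟩, rfl⟩, rfl, rfl, Or.inl rfl, ?_⟩
    · change l ≤ p + 2; omega
    · change p + 2 + 1 ≤ q; omega
    · change (q - (p + 2)) % 2 = 1; omega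
    · change l + 3 ≤ p + 2; omega
    · change q - (p + 2) < r; omega

/-- own - own -/
theorem own_own [NeZero N] (hN : 2 ≤ N) {g g' : Gd N} (hg : InS g) (hg' : InS g') (hne : g ≠ g')
    {G : ZMod N → ℕ} (h : own g G) (h' : own g' G) : False := by
  obtain ⟨j, c, h1, rfl⟩ := h
  obtain ⟨j', c', h2, e⟩ := h'
  have h3 := (own_can hN hg h1.cov).eq' (own_can hN hg' h2.cov) e
  exact hne (uniq hN hg hg' (K := ad g.f (j : ZMod N)) ⟨j, h1.cov, rfl⟩ ⟨j', h2.cov, h3⟩)

/-- own - old of `jm` -/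
theorem own_jm [NeZero N] (hN : 2 ≤ N) {g g' : Gd N} (hg : InS g) (hg' : InS g')
    (hk : g'.kd = .jm) {G : ZMod N → ℕ} (h : own g G) (h' : old g' G) : False := by
  obtain ⟨j, c, h1, rfl⟩ := h
  unfold old at h'
  rw [hk] at h'
  obtain ⟨h0, e⟩ := h'
  obtain ⟨q, g1, a1, a2, a3, a4, a5, a6, a7, a8⟩ := jm_old hg' hk h0
  have h4 : ∀ j, j = g1.p → cov g1.kd g1.p j := by
    rintro j rfl
    rcases a7 with a7 | a7 <;> rw [a7] <;> exact Or.inl rfl
  have h5 : Can (ad g'.f ((g'.p + 2 : ℕ) : ZMod N)) := by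
    have := own_can hN a4 (j := g'.p + 2) (h4 _ a6.symm)
    rw [a5] at this
    exact this
  have h6 := (own_can hN hg h1.cov).eq' h5 e
  have h7 : g = g1 := by
    apply uniq hN hg a4 (K := ad g.f (j : ZMod N)) ⟨j, h1.cov, rfl⟩
    exact ⟨g'.p + 2, h4 _ a6.symm, by rw [a5]; exact h6⟩
  subst h7
  rw [a6] at h1
  rw [a5] at h6 e
  have hF : Fst (ad g'.f ((g'.p + 2 : ℕ) : ZMod N)) (g'.p + 2) := a1.ad_fst (by omega)
  have hj : j = g'.p + 2 := by
    have h8 : j ≤ q := by
      rcases a7 with a7 | a7 <;> rw [a7] at h1 <;> simp only [ow] at h1 <;> omega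
    exact (ad_eq_ad a1 a1 h8 (by omega) h6).1
  subst hj
  have hc : c = g'.p + 3 := by
    rcases a7 with a7 | a7 <;> rw [a7] at h1 <;> simp only [ow] at h1 <;> omega
  subst hc
  rw [← h6] at e
  refine nonconst hF (by omega) (c := ((g'.p + 2 : ℕ) : ZMod N)) ?_
  rw [← e]
  congr 1
  push_cast
  ring

/-- old of `jm` - old of `jm` -/
theorem jm_jm [NeZero N] (hN : 2 ≤ N) {g g' : Gd N} (hg : InS g) (hg' : InS g') (hne : g ≠ g')
    (hk : g.kd = .jm) (hk' : g'.kd = .jm) {G : ZMod N → ℕ} (h : old g G) (h' : old g' G) : False := by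
  unfold old at h h'
  rw [hk] at h
  rw [hk'] at h'
  obtain ⟨h0, rfl⟩ := h
  obtain ⟨h0', e⟩ := h'
  obtain ⟨q, g1, a1, a2, a3, a4, a5, a6, a7, a8⟩ := jm_old hg hk h0
  obtain ⟨q', g1', b1, b2, b3, b4, b5, b6, b7, b8⟩ := jm_old hg' hk' h0'
  have h4 : Can (ad g.f ((g.p + 2 : ℕ) : ZMod N)) := by
    have := own_can hN a4 (j := g.p + 2) (by rcases a7 with a7 | a7 <;> rw [a7] <;> exact Or.inl a6.symm)
    rw [a5] at this
    exact this
  have h5 : Can (ad g'.f ((g'.p + 2 : ℕ) : ZMod N)) := by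
    have := own_can hN b4 (j := g'.p + 2) (by rcases b7 with b7 | b7 <;> rw [b7] <;> exact Or.inl b6.symm)
    rw [b5] at this
    exact this
  have h6 := h4.eq' h5 e
  obtain ⟨h7, h8⟩ := ad_eq_ad a1 b1 a2.le b2.le h6
  rcases same_line hg hg' h8 with h9 | ⟨q, l, h9, h10, h11⟩
  · exact hne h9
  · exact hne (h10.ext h11 h8 (by rw [hk, hk']) (by omega))

/-- old of `nm` - old of `jm` -/
theorem nm_jm [NeZero N] {g g' : Gd N} (hg' : InS g')
    (hk : g.kd = .nm) (hk' : g'.kd = .jm) {G : ZMod N → ℕ} (h : old g G) (h' : old g' G) : False := by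
  unfold old at h h'
  rw [hk] at h
  rw [hk'] at h'
  obtain ⟨h0', e⟩ := h'
  change G = sh (g.p : ZMod N) (ad g.f ((g.p : ZMod N) - 1)) at h
  rw [old_eq] at h
  obtain ⟨q', g1', b1, b2, b3, b4, b5, b6, b7, b8⟩ := jm_old hg' hk' h0'
  have hq := b1.lt
  have h1 := congrFun (h.symm.trans e) (-1)
  rw [ad_self, sh_apply (((g'.p + 2 : ℕ) : ZMod N)), neg_one_cast (by omega),
    ad_ne' _ (by omega) (by omega) (by omega), show g'.p + 2 - 1 = g'.p + 1 by omega, h0'] at h1
  omega

/-- **U** -/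
theorem U_disj [NeZero N] (hN : 3 ≤ N) {g g' : Gd N} (hg : InS g) (hg' : InS g') (hne : g ≠ g')
    {G : ZMod N → ℕ} (h : own g G ∨ old g G) (h' : own g' G ∨ old g' G) : False := by
  have hk : ∀ g : Gd N, old g G → g.kd = .jm ∨ g.kd = .nm := by
    intro g h
    obtain ⟨k, f, p, r⟩ := g
    cases k
    · exact Or.inl rfl
    · exact h.elim
    · exact h.elim
    · exact Or.inr rfl
  have on : ∀ g g' : Gd N, InS g → InS g' → own g G → old g' G → False := by
    intro g g' hg hg' h h'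
    rcases hk g' h' with h1 | h1
    · exact own_jm (by omega) hg hg' h1 h h'
    · obtain ⟨j, c, h2, rfl⟩ := h
      unfold old at h'
      rw [h1] at h'
      change _ = sh (g'.p : ZMod N) (ad g'.f ((g'.p : ZMod N) - 1)) at h'
      rw [old_eq] at h'
      exact nm_old_own hN (hg'.nmd h1) (own_can (by omega) hg h2.cov) (own_OT (by omega) hg h2) h'.symm
  rcases h with h | h <;> rcases h' with h' | h'
  · exact own_own (by omega) hg hg' hne h h'
  · exact on g g' hg hg' h h'
  · exact on g' g hg' hg h' h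
  · rcases hk g h with h1 | h1 <;> rcases hk g' h' with h2 | h2
    · exact jm_jm (by omega) hg hg' hne h1 h2 h h'
    · exact nm_jm hg h2 h1 h' h
    · exact nm_jm hg' h1 h2 h h'
    · have n1 := hg.nmd h1
      have n2 := hg'.nmd h2
      unfold old at h h'
      rw [h1] at h
      rw [h2] at h'
      change G = sh (g.p : ZMod N) (ad g.f ((g.p : ZMod N) - 1)) at h
      change G = sh (g'.p : ZMod N) (ad g'.f ((g'.p : ZMod N) - 1)) at h'
      rw [old_eq] at h h'
      have h3 := ad_inj (h.symm.trans h')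
      have h4 := n1.can.eq' n2.can h3
      exact hne (line_uniq hg hg' h4 (by rw [h1]; decide) (by rw [h2]; decide))

end Runs

end Pool.OddHC
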