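import Pool.Agent.Work.MP_8f87b2_h47.Runs3

/-!
# MP_8f87b2_co, HOLE 2: the interface

`Sch a S`: all properties of the gadget set in terms of `Φ = Phi g`. `Rot G G'`: the same class.
-/

set_option autoImplicit false

namespace Pool.OddHC

namespace Runs

open Finset

variable {N : ℕ}

/-- the same class (`cyc_wa`) -/
def Rot (G G' : ZMod N → ℕ) : Prop := ∃ c : ZMod N, G' = fun z => G (z + c)

theorem Rot.refl (G : ZMod N → ℕ) : Rot G G := ⟨0, by funext z; rw [add_zero]⟩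

theorem Rot.symm {G G' : ZMod N → ℕ} (h : Rot G G') : Rot G' G := by
  obtain ⟨c, rfl⟩ := h
  refine ⟨-c, ?_⟩
  funext z
  change G z = G (z + -c + c)
  rw [neg_add_cancel_right]

theorem Rot.trans {G G' G'' : ZMod N → ℕ} (h : Rot G G') (h' : Rot G' G'') : Rot G G'' := by
  obtain ⟨c, rfl⟩ := h
  obtain ⟨d, rfl⟩ := h'
  refine ⟨d + c, ?_⟩
  funext z
  change G (z + d + c) = G (z + (d + c))
  rw [add_assoc]

theorem rot_sh (c : ZMod N) (G : ZMod N → ℕ) : Rot G (sh c G) := ⟨c, rfl⟩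

theorem Rot.sum [NeZero N] {G G' : ZMod N → ℕ} (h : Rot G G') : ∑ z, G' z = ∑ z, G z := by
  obtain ⟨c, rfl⟩ := h
  exact sh_sum c G

theorem Can.rot {f g : ZMod N → ℕ} (hf : Can f) (hg : Can g) (h : Rot f g) : f = g := by
  obtain ⟨c, h⟩ := h
  exact hf.eq hg h

/-! ### The sets of a gadget `(kd, Φ)` -/

/-- `Φ'` -/
abbrev up (Φ : ZMod N → ℕ) : ZMod N → ℕ := fun z => Φ (z + 1)

/-- `Φ''` -/
abbrev dn (Φ : ZMod N → ℕ) : ZMod N → ℕ := fun z => Φ (z - 1)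

/-- functions of the new classes (one per class) -/
def NF (k : Kd) (Φ : ZMod N → ℕ) : Set (ZMod N → ℕ) := match k with
  | .jm => {G | G = ad Φ 0 ∨ G = ad Φ (-1)}
  | .jy => {G | G = ad Φ 0 ∨ G = ad Φ (-1)}
  | .j5 => {G | G = ad Φ (-1) ∨ G = ad Φ 0 ∨ G = ad (dn Φ) (-1)}
  | .nm => {G | G = ad Φ 0}

/-- pure functions -/
def PF (k : Kd) (Φ : ZMod N → ℕ) : Set (ZMod N → ℕ) := match k with
  | .jm => {Ψ | Ψ = Φ ∨ (Φ 0 = 0 ∧ Ψ = up Φ)}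
  | .jy => {Ψ | Ψ = Φ}
  | .j5 => {Ψ | Ψ = Φ ∨ Ψ = dn Φ}
  | .nm => {Ψ | Ψ = Φ}

/-- class functions -/
def UF (k : Kd) (Φ : ZMod N → ℕ) : Set (ZMod N → ℕ) := match k with
  | .jm => {G | G = ad Φ 0 ∨ G = ad Φ (-1) ∨ G = ad (up Φ) (-1) ∨ (Φ 0 = 0 ∧ G = ad (up Φ) 0)}
  | .jy => {G | G = ad Φ 0 ∨ G = ad Φ (-1) ∨ G = ad (up Φ) (-1)}
  | .j5 => {G | G = ad Φ (-1) ∨ G = ad Φ 0 ∨ G = ad (dn Φ) (-1)}
  | .nm => {G | G = ad Φ 0 ∨ G = ad Φ (-1) ∨ G = ad (up Φ) (-1)}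

/-- mixed functions -/
def MF (k : Kd) (Φ : ZMod N → ℕ) : Set (ZMod N → ℕ) := match k with
  | .jm => {Ψ | 1 ≤ Φ 0 ∧ Ψ = up Φ}
  | .jy => {Ψ | Ψ = up Φ}
  | .j5 => {Ψ | False ∧ Ψ = Φ}
  | .nm => {Ψ | Ψ = up Φ}

/-- the conditions of a single gadget -/
def CF (k : Kd) (Φ : ZMod N → ℕ) : Prop := match k with
  | .jm => ad Φ 0 ≠ ad (up Φ) (-1) ∧ ¬ Rot (ad Φ 0) (ad Φ (-1)) ∧
      (Φ 0 = 0 → ¬ Rot (ad (up Φ) 0) (ad Φ 0) ∧ ¬ Rot (ad (up Φ) 0) (ad Φ (-1)))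
  | .jy => 1 ≤ Φ 0 ∧ ad Φ 0 ≠ ad (up Φ) (-1) ∧ ¬ Rot (ad Φ 0) (ad Φ (-1))
  | .j5 => Φ (-1) = 0 ∧ ¬ Rot (ad Φ (-1)) (ad Φ 0) ∧ ¬ Rot (ad Φ (-1)) (ad (dn Φ) (-1)) ∧
      ¬ Rot (ad Φ 0) (ad (dn Φ) (-1))
  | .nm => 1 ≤ Φ 0 ∧ ad Φ 0 ≠ ad (up Φ) (-1) ∧ ¬ Rot (ad Φ 0) (ad Φ (-1))

/-- **THE INTERFACE.** `T`: index set of the gadgets, `kd`, `F`, `rk`: kind, function `Φ`, rank -/
structure Sch [NeZero N] (a : ℕ) {T : Type} (kd : T → Kd) (F : T → ZMod N → ℕ) (rk : T → ℕ) : Prop where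
  sum : ∀ t, ∑ z, F t z + 1 = a
  rkb : ∀ t, rk t < 2 * N + 1
  cond : ∀ t, CF (kd t) (F t)
  /-- every class is new -/
  cover : ∀ G : ZMod N → ℕ, ∑ z, G z = a → ∃ t, ∃ G' ∈ NF (kd t) (F t), Rot G G'
  /-- in only one gadget -/
  uniq : ∀ t t', ∀ G ∈ NF (kd t) (F t), ∀ G' ∈ NF (kd t') (F t'), Rot G G' → t = t'
  /-- words -/
  P : ∀ t t', t ≠ t' → ∀ Ψ ∈ PF (kd t) (F t), Ψ ∉ PF (kd t') (F t')
  U : ∀ t t', t ≠ t' → ∀ G ∈ UF (kd t) (F t), G ∉ UF (kd t') (F t')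
  M : ∀ t t', t ≠ t' → ∀ Ψ ∈ MF (kd t) (F t), Ψ ∉ MF (kd t') (F t')
  /-- the old words of the class are new in a gadget of smaller rank -/
  old : ∀ t, ∀ G ∈ UF (kd t) (F t), (∃ G' ∈ NF (kd t) (F t), Rot G G') ∨
    ∃ t', rk t' < rk t ∧ ∃ G' ∈ NF (kd t') (F t'), Rot G G'
  /-- every line of a gadget has exactly one gadget not of kind `jm`, and it has the smallest rank -/
  line : ∀ t, kd t = .jm → ∃ t', kd t' ≠ .jm ∧ Rot (F t) (F t') ∧ rk t' < rk t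
  lineu : ∀ t t', kd t ≠ .jm → kd t' ≠ .jm → Rot (F t) (F t') → t = t'

/-! ### Canonical form of the gadget sets -/

/-- the properties of a set of canonical gadgets -/
structure CSch [NeZero N] (a : ℕ) (S : Gd N → Prop) : Prop where
  can : ∀ g, S g → Can g.f
  sum : ∀ g, S g → ∑ z, g.f z + 1 = a
  rkb : ∀ g, S g → g.r < 2 * N + 1
  own_can : ∀ g, S g → ∀ j : ℕ, cov g.kd g.p j → Can (ad g.f (j : ZMod N))
  own_inj : ∀ g, S g → ∀ i j : ℕ, cov g.kd g.p i → cov g.kd g.p j →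
    ad g.f (i : ZMod N) = ad g.f (j : ZMod N) → i = j
  /-- the repeated new word -/
  nonc : ∀ g, S g → ∀ c j : ℕ, ow g.kd g.p j c → ow g.kd g.p j (c + 1) → ¬ sh (c : ZMod N) (ad g.f (j : ZMod N)) =
    sh ((c + 1 : ℕ) : ZMod N) (ad g.f (j : ZMod N))
  gap : ∀ g, S g → ((g.kd = .jy → 1 ≤ g.f ((g.p + 1 : ℕ) : ZMod N)) ∧
    (g.kd = .j5 → g.f ((g.p + 1 : ℕ) : ZMod N) = 0) ∧ (g.kd = .nm → 1 ≤ g.f (g.p : ZMod N)))
  cover : ∀ K : ZMod N → ℕ, Can K → ∑ z, K z = a → ∃ g, S g ∧ K ∈ nc g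
  uniq : ∀ g g', S g → S g' → ∀ K, K ∈ nc g → K ∈ nc g' → g = g'
  P : ∀ g g', S g → S g' → g ≠ g' → ∀ Ψ, Ψ ∈ PS g → Ψ ∈ PS g' → False
  M : ∀ g g', S g → S g' → g ≠ g' → ∀ Ψ, Ψ ∈ MS g → Ψ ∈ MS g' → False
  U : ∀ g g', S g → S g' → g ≠ g' → ∀ G, own g G ∨ old g G → own g' G ∨ old g' G → False
  old : ∀ g, S g → ∀ G, old g G → ∃ g', S g' ∧ g'.r < g.r ∧ ∃ K ∈ nc g', Rot K G
  line : ∀ g, S g → g.kd = .jm → ∃ g', S g' ∧ g'.kd ≠ .jm ∧ g'.f = g.f ∧ g'.r < g.r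
  lineu : ∀ g g', S g → S g' → g.kd ≠ .jm → g'.kd ≠ .jm → g.f = g'.f → g = g'

/-! ### Translation -/

theorem nc_ad_up (f : ZMod N → ℕ) (p : ℕ) :
    up (sh (p : ZMod N) f) = sh ((p + 1 : ℕ) : ZMod N) f := by
  funext z
  change f (z + 1 + (p : ZMod N)) = f (z + ((p + 1 : ℕ) : ZMod N))
  push_cast
  congr 1
  ring

theorem nc_ad_dn (f : ZMod N → ℕ) (p : ℕ) :
    dn (sh ((p + 1 : ℕ) : ZMod N) f) = sh (p : ZMod N) f := by
  funext z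
  change f (z - 1 + ((p + 1 : ℕ) : ZMod N)) = f (z + (p : ZMod N))
  push_cast
  congr 1
  ring

theorem ad_sh0 (f : ZMod N → ℕ) (p : ZMod N) : ad (sh p f) 0 = sh p (ad f p) := by
  rw [sh_ad, sub_self]

theorem ad_shm (f : ZMod N → ℕ) (p : ℕ) :
    ad (sh ((p + 1 : ℕ) : ZMod N) f) (-1) = sh ((p + 1 : ℕ) : ZMod N) (ad f (p : ZMod N)) := by
  rw [sh_ad]
  congr 1
  push_cast
  ring

theorem sh_val0 (f : ZMod N → ℕ) (p : ZMod N) : sh p f 0 = f p := by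
  rw [sh_apply, zero_add]

theorem sh_valm (f : ZMod N → ℕ) (p : ℕ) : sh ((p + 1 : ℕ) : ZMod N) f (-1) = f (p : ZMod N) := by
  rw [sh_apply]
  congr 1
  push_cast
  ring

/-- new functions -/
theorem NF_iff (g : Gd N) (G : ZMod N → ℕ) (h : G ∈ NF g.kd (Phi g)) : ∃ K ∈ nc g, Rot K G := by
  obtain ⟨k, f, p, r⟩ := g
  cases k
  · rcases h with h | h
    · refine ⟨ad f ((p + 1 : ℕ) : ZMod N), ⟨p + 1, Or.inr rfl, rfl⟩, ?_⟩
      rw [h]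
      change Rot _ (ad (sh ((p + 1 : ℕ) : ZMod N) f) 0)
      rw [ad_sh0]
      exact rot_sh _ _
    · refine ⟨ad f (p : ZMod N), ⟨p, Or.inl rfl, rfl⟩, ?_⟩
      rw [h]
      change Rot _ (ad (sh ((p + 1 : ℕ) : ZMod N) f) (-1))
      rw [ad_shm]
      exact rot_sh _ _
  · rcases h with h | h
    · refine ⟨ad f ((p + 1 : ℕ) : ZMod N), ⟨p + 1, Or.inr rfl, rfl⟩, ?_⟩
      rw [h]
      change Rot _ (ad (sh ((p + 1 : ℕ) : ZMod N) f) 0)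
      rw [ad_sh0]
      exact rot_sh _ _
    · refine ⟨ad f (p : ZMod N), ⟨p, Or.inl rfl, rfl⟩, ?_⟩
      rw [h]
      change Rot _ (ad (sh ((p + 1 : ℕ) : ZMod N) f) (-1))
      rw [ad_shm]
      exact rot_sh _ _
  · rcases h with h | h | h
    · refine ⟨ad f ((p + 1 : ℕ) : ZMod N), ⟨p + 1, Or.inr (Or.inl rfl), rfl⟩, ?_⟩
      rw [h]
      change Rot _ (ad (sh ((p + 1 + 1 : ℕ) : ZMod N) f) (-1))
      rw [ad_shm]
      exact rot_sh _ _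
    · refine ⟨ad f ((p + 2 : ℕ) : ZMod N), ⟨p + 2, Or.inr (Or.inr rfl), rfl⟩, ?_⟩
      rw [h]
      change Rot _ (ad (sh ((p + 2 : ℕ) : ZMod N) f) 0)
      rw [ad_sh0]
      exact rot_sh _ _
    · refine ⟨ad f (p : ZMod N), ⟨p, Or.inl rfl, rfl⟩, ?_⟩
      rw [h]
      change Rot _ (ad (dn (sh ((p + 1 + 1 : ℕ) : ZMod N) f)) (-1))
      rw [nc_ad_dn, ad_shm]
      exact rot_sh _ _
  · refine ⟨ad f (p : ZMod N), ⟨p, rfl, rfl⟩, ?_⟩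
    rw [show G = ad (Phi ⟨.nm, f, p, r⟩) 0 from h]
    change Rot _ (ad (sh (p : ZMod N) f) 0)
    rw [ad_sh0]
    exact rot_sh _ _

theorem NF_ex (g : Gd N) {K : ZMod N → ℕ} (h : K ∈ nc g) : ∃ G ∈ NF g.kd (Phi g), Rot K G := by
  obtain ⟨k, f, p, r⟩ := g
  obtain ⟨j, hj, rfl⟩ := h
  cases k
  · rcases hj with hj | hj
    · refine ⟨_, Or.inr rfl, ?_⟩
      change Rot _ (ad (sh ((p + 1 : ℕ) : ZMod N) f) (-1))
      rw [ad_shm, hj]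
      exact rot_sh _ _
    · refine ⟨_, Or.inl rfl, ?_⟩
      change Rot _ (ad (sh ((p + 1 : ℕ) : ZMod N) f) 0)
      rw [ad_sh0, hj]
      exact rot_sh _ _
  · rcases hj with hj | hj
    · refine ⟨_, Or.inr rfl, ?_⟩
      change Rot _ (ad (sh ((p + 1 : ℕ) : ZMod N) f) (-1))
      rw [ad_shm, hj]
      exact rot_sh _ _
    · refine ⟨_, Or.inl rfl, ?_⟩
      change Rot _ (ad (sh ((p + 1 : ℕ) : ZMod N) f) 0)
      rw [ad_sh0, hj]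
      exact rot_sh _ _
  · rcases hj with hj | hj | hj
    · refine ⟨_, Or.inr (Or.inr rfl), ?_⟩
      change Rot _ (ad (dn (sh ((p + 1 + 1 : ℕ) : ZMod N) f)) (-1))
      rw [nc_ad_dn, ad_shm, hj]
      exact rot_sh _ _
    · refine ⟨_, Or.inl rfl, ?_⟩
      change Rot _ (ad (sh ((p + 1 + 1 : ℕ) : ZMod N) f) (-1))
      rw [ad_shm, hj]
      exact rot_sh _ _
    · refine ⟨_, Or.inr (Or.inl rfl), ?_⟩
      change Rot _ (ad (sh ((p + 2 : ℕ) : ZMod N) f) 0)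
      rw [ad_sh0, hj]
      exact rot_sh _ _
  · refine ⟨_, rfl, ?_⟩
    change Rot _ (ad (sh (p : ZMod N) f) 0)
    rw [ad_sh0, show j = p from hj]
    exact rot_sh _ _

/-- class functions -/
theorem UF_iff (g : Gd N) (G : ZMod N → ℕ) (h : G ∈ UF g.kd (Phi g)) : own g G ∨ old g G := by
  obtain ⟨k, f, p, r⟩ := g
  cases k
  · rcases h with h | h | h | ⟨h0, h⟩
    · left
      refine ⟨p + 1, p + 1, Or.inl ⟨rfl, rfl⟩, ?_⟩
      rw [h]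
      exact ad_sh0 _ _
    · left
      refine ⟨p, p + 1, Or.inr (Or.inl ⟨rfl, rfl⟩), ?_⟩
      rw [h]
      exact ad_shm _ _
    · left
      refine ⟨p + 1, p + 2, Or.inr (Or.inr ⟨rfl, rfl⟩), ?_⟩
      rw [h]
      change ad (up (sh ((p + 1 : ℕ) : ZMod N) f)) (-1) = _
      rw [nc_ad_up]
      exact ad_shm _ _
    · right
      change sh ((p + 1 : ℕ) : ZMod N) f 0 = 0 at h0
      rw [sh_val0] at h0
      refine ⟨h0, ?_⟩
      rw [h]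
      change ad (up (sh ((p + 1 : ℕ) : ZMod N) f)) 0 = _
      rw [nc_ad_up]
      exact ad_sh0 _ _
  · rcases h with h | h | h
    · left
      refine ⟨p + 1, p + 1, Or.inl ⟨rfl, rfl⟩, ?_⟩
      rw [h]
      exact ad_sh0 _ _
    · left
      refine ⟨p, p + 1, Or.inr (Or.inl ⟨rfl, rfl⟩), ?_⟩
      rw [h]
      exact ad_shm _ _
    · left
      refine ⟨p + 1, p + 2, Or.inr (Or.inr ⟨rfl, rfl⟩), ?_⟩
      rw [h]
      change ad (up (sh ((p + 1 : ℕ) : ZMod N) f)) (-1) = _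
      rw [nc_ad_up]
      exact ad_shm _ _
  · rcases h with h | h | h
    · left
      refine ⟨p + 1, p + 2, Or.inl ⟨rfl, rfl⟩, ?_⟩
      rw [h]
      exact ad_shm _ _
    · left
      refine ⟨p + 2, p + 2, Or.inr (Or.inl ⟨rfl, rfl⟩), ?_⟩
      rw [h]
      exact ad_sh0 _ _
    · left
      refine ⟨p, p + 1, Or.inr (Or.inr ⟨rfl, rfl⟩), ?_⟩
      rw [h]
      change ad (dn (sh ((p + 1 + 1 : ℕ) : ZMod N) f)) (-1) = _
      rw [nc_ad_dn]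
      exact ad_shm _ _
  · rcases h with h | h | h
    · left
      refine ⟨p, p, Or.inl ⟨rfl, rfl⟩, ?_⟩
      rw [h]
      exact ad_sh0 _ _
    · right
      change G = sh (p : ZMod N) (ad f ((p : ZMod N) - 1))
      rw [h]
      exact (old_eq f (p : ZMod N)).symm
    · left
      refine ⟨p, p + 1, Or.inr ⟨rfl, rfl⟩, ?_⟩
      rw [h]
      change ad (up (sh (p : ZMod N) f)) (-1) = _
      rw [nc_ad_up]
      exact ad_shm _ _

theorem PF_iff (g : Gd N) (Ψ : ZMod N → ℕ) (h : Ψ ∈ PF g.kd (Phi g)) : Ψ ∈ PS g := by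
  obtain ⟨k, f, p, r⟩ := g
  cases k
  · rcases h with h | ⟨h0, h⟩
    · exact ⟨p + 1, Or.inl rfl, h⟩
    · change sh ((p + 1 : ℕ) : ZMod N) f 0 = 0 at h0
      rw [sh_val0] at h0
      refine ⟨p + 2, Or.inr ⟨h0, rfl⟩, ?_⟩
      rw [h]
      exact nc_ad_up f (p + 1)
  · exact ⟨p + 1, rfl, h⟩
  · rcases h with h | h
    · exact ⟨p + 2, Or.inr rfl, h⟩
    · refine ⟨p + 1, Or.inl rfl, ?_⟩
      rw [h]
      exact nc_ad_dn f (p + 1)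
  · exact ⟨p, rfl, h⟩

theorem MF_iff (g : Gd N) (Ψ : ZMod N → ℕ) (h : Ψ ∈ MF g.kd (Phi g)) : Ψ ∈ MS g := by
  obtain ⟨k, f, p, r⟩ := g
  cases k
  · obtain ⟨h0, h⟩ := h
    change 1 ≤ sh ((p + 1 : ℕ) : ZMod N) f 0 at h0
    rw [sh_val0] at h0
    refine ⟨p + 2, ⟨fun e => ?_, rfl⟩, ?_⟩
    · change f ((p + 1 : ℕ) : ZMod N) = 0 at e
      omega
    rw [h]
    exact nc_ad_up f (p + 1)
  · refine ⟨p + 2, rfl, ?_⟩
    rw [show Ψ = up (Phi ⟨.jy, f, p, r⟩) from h]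
    exact nc_ad_up f (p + 1)
  · exact h.1.elim
  · refine ⟨p + 1, rfl, ?_⟩
    rw [show Ψ = up (Phi ⟨.nm, f, p, r⟩) from h]
    exact nc_ad_up f p

theorem Phi_rot (g : Gd N) : Rot g.f (Phi g) := by
  obtain ⟨k, f, p, r⟩ := g
  cases k
  · exact rot_sh _ _
  · exact rot_sh _ _
  · exact rot_sh _ _
  · exact rot_sh _ _

theorem own_nc {g : Gd N} {G : ZMod N → ℕ} (h : own g G) : ∃ K ∈ nc g, Rot K G := by
  obtain ⟨j, c, h1, rfl⟩ := h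
  exact ⟨_, ⟨j, h1.cov, rfl⟩, rot_sh _ _⟩

/-- **the interface from the canonical form** -/
theorem CSch.sch [NeZero N] {a : ℕ} {S : Gd N → Prop} (h : CSch a S) :
    Sch a (T := {g : Gd N // S g}) (fun t => t.1.kd) (fun t => Phi t.1) (fun t => t.1.r) := by
  -- new functions of different positions are in different classes
  have hrot : ∀ g, S g → ∀ i j : ℕ, ∀ c d : ZMod N, cov g.kd g.p i → cov g.kd g.p j → i ≠ j →
      ¬ Rot (sh c (ad g.f (i : ZMod N))) (sh d (ad g.f (j : ZMod N))) := by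
    intro g hg i j c d hi hj hij hr
    apply hij
    apply h.own_inj g hg i j hi hj
    apply (h.own_can g hg i hi).rot (h.own_can g hg j hj)
    exact ((rot_sh c _).trans hr).trans (rot_sh d _).symm
  -- an old function is in no new class of its gadget
  have hold : ∀ g, S g → ∀ G, Runs.old g G → ∀ j : ℕ, ∀ c : ZMod N, cov g.kd g.p j →
      ¬ Rot G (sh c (ad g.f (j : ZMod N))) := by
    intro g hg G hG j c hj hr
    obtain ⟨g', h1, h2, K, h3, h4⟩ := h.old g hg G hG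
    have h5 : K = ad g.f (j : ZMod N) := by
      obtain ⟨i, hi, e⟩ := h3
      rw [e]
      apply (h.own_can g' h1 i hi).rot (h.own_can g hg j hj)
      rw [← e]
      exact (h4.trans hr).trans (rot_sh c _).symm
    have h6 := h.uniq g' g h1 hg K h3 ⟨j, hj, h5⟩
    rw [h6] at h2
    omega
  constructor
  · rintro ⟨g, hg⟩
    rw [(Phi_rot g).sum]
    exact h.sum g hg
  · rintro ⟨g, hg⟩
    exact h.rkb g hg
  · rintro ⟨g, hg⟩
    have hgap := h.gap g hg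
    have hnc := h.nonc g hg
    have hr := hrot g hg
    have ho := hold g hg
    obtain ⟨k, f, p, r⟩ := g
    cases k
    · refine ⟨?_, ?_, fun h0 => ⟨?_, ?_⟩⟩
      · change ad (sh ((p + 1 : ℕ) : ZMod N) f) 0 ≠ ad (up (sh ((p + 1 : ℕ) : ZMod N) f)) (-1)
        rw [nc_ad_up, ad_sh0, ad_shm]
        exact hnc (p + 1) (p + 1) (Or.inl ⟨rfl, rfl⟩) (Or.inr (Or.inr ⟨rfl, rfl⟩))
      · change ¬ Rot (ad (sh ((p + 1 : ℕ) : ZMod N) f) 0) (ad (sh ((p + 1 : ℕ) : ZMod N) f) (-1))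
        rw [ad_sh0, ad_shm]
        exact hr (p + 1) p _ _ (Or.inr rfl) (Or.inl rfl) (by omega)
      · change ¬ Rot (ad (up (sh ((p + 1 : ℕ) : ZMod N) f)) 0) (ad (sh ((p + 1 : ℕ) : ZMod N) f) 0)
        change sh ((p + 1 : ℕ) : ZMod N) f 0 = 0 at h0
        rw [sh_val0] at h0
        rw [ad_sh0, nc_ad_up, ad_sh0]
        exact ho _ ⟨h0, rfl⟩ (p + 1) _ (Or.inr rfl)
      · change ¬ Rot (ad (up (sh ((p + 1 : ℕ) : ZMod N) f)) 0) (ad (sh ((p + 1 : ℕ) : ZMod N) f) (-1))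
        change sh ((p + 1 : ℕ) : ZMod N) f 0 = 0 at h0
        rw [sh_val0] at h0
        rw [ad_shm, nc_ad_up, ad_sh0]
        exact ho _ ⟨h0, rfl⟩ p _ (Or.inl rfl)
    · refine ⟨?_, ?_, ?_⟩
      · change 1 ≤ sh ((p + 1 : ℕ) : ZMod N) f 0
        rw [sh_val0]
        exact hgap.1 rfl
      · change ad (sh ((p + 1 : ℕ) : ZMod N) f) 0 ≠ ad (up (sh ((p + 1 : ℕ) : ZMod N) f)) (-1)
        rw [nc_ad_up, ad_sh0, ad_shm]
        exact hnc (p + 1) (p + 1) (Or.inl ⟨rfl, rfl⟩) (Or.inr (Or.inr ⟨rfl, rfl⟩))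
      · change ¬ Rot (ad (sh ((p + 1 : ℕ) : ZMod N) f) 0) (ad (sh ((p + 1 : ℕ) : ZMod N) f) (-1))
        rw [ad_sh0, ad_shm]
        exact hr (p + 1) p _ _ (Or.inr rfl) (Or.inl rfl) (by omega)
    · refine ⟨?_, ?_, ?_, ?_⟩
      · change sh ((p + 1 + 1 : ℕ) : ZMod N) f (-1) = 0
        rw [sh_valm]
        exact hgap.2.1 rfl
      · change ¬ Rot (ad (sh ((p + 1 + 1 : ℕ) : ZMod N) f) (-1)) (ad (sh ((p + 2 : ℕ) : ZMod N) f) 0)
        rw [ad_sh0, ad_shm]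
        exact hr (p + 1) (p + 2) _ _ (Or.inr (Or.inl rfl)) (Or.inr (Or.inr rfl)) (by omega)
      · change ¬ Rot (ad (sh ((p + 1 + 1 : ℕ) : ZMod N) f) (-1))
          (ad (dn (sh ((p + 1 + 1 : ℕ) : ZMod N) f)) (-1))
        rw [nc_ad_dn, ad_shm, ad_shm]
        exact hr (p + 1) p _ _ (Or.inr (Or.inl rfl)) (Or.inl rfl) (by omega)
      · change ¬ Rot (ad (sh ((p + 2 : ℕ) : ZMod N) f) 0)
          (ad (dn (sh ((p + 1 + 1 : ℕ) : ZMod N) f)) (-1))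
        rw [nc_ad_dn, ad_shm, ad_sh0]
        exact hr (p + 2) p _ _ (Or.inr (Or.inr rfl)) (Or.inl rfl) (by omega)
    · refine ⟨?_, ?_, ?_⟩
      · change 1 ≤ sh (p : ZMod N) f 0
        rw [sh_val0]
        exact hgap.2.2 rfl
      · change ad (sh (p : ZMod N) f) 0 ≠ ad (up (sh (p : ZMod N) f)) (-1)
        rw [nc_ad_up, ad_sh0, ad_shm]
        exact hnc p p (Or.inl ⟨rfl, rfl⟩) (Or.inr ⟨rfl, rfl⟩)
      · change ¬ Rot (ad (sh (p : ZMod N) f) 0) (ad (sh (p : ZMod N) f) (-1))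
        intro h1
        rw [ad_sh0, ← old_eq] at h1
        exact ho _ rfl p _ rfl h1.symm
  · intro G hG
    obtain ⟨c, hc⟩ := exists_can G
    obtain ⟨g, hg, hK⟩ := h.cover (sh c G) hc (by rw [sh_sum]; exact hG)
    obtain ⟨G', h1, h2⟩ := NF_ex g hK
    exact ⟨⟨g, hg⟩, G', h1, (rot_sh c G).trans h2⟩
  · rintro ⟨g, hg⟩ ⟨g', hg'⟩ G hG G' hG' hr
    apply Subtype.ext
    obtain ⟨K, hK, h1⟩ := NF_iff g G hG
    obtain ⟨K', hK', h2⟩ := NF_iff g' G' hG'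
    have h3 : K = K' := by
      have e1 : Can K := by
        obtain ⟨j, hj, rfl⟩ := hK
        exact h.own_can g hg j hj
      have e2 : Can K' := by
        obtain ⟨j, hj, rfl⟩ := hK'
        exact h.own_can g' hg' j hj
      exact e1.rot e2 ((h1.trans hr).trans h2.symm)
    subst h3
    exact h.uniq g g' hg hg' K hK hK'
  · rintro ⟨g, hg⟩ ⟨g', hg'⟩ hne Ψ h1 h2
    exact h.P g g' hg hg' (fun e => hne (Subtype.ext e)) Ψ (PF_iff g Ψ h1) (PF_iff g' Ψ h2)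
  · rintro ⟨g, hg⟩ ⟨g', hg'⟩ hne Ψ h1 h2
    exact h.U g g' hg hg' (fun e => hne (Subtype.ext e)) Ψ (UF_iff g Ψ h1) (UF_iff g' Ψ h2)
  · rintro ⟨g, hg⟩ ⟨g', hg'⟩ hne Ψ h1 h2
    exact h.M g g' hg hg' (fun e => hne (Subtype.ext e)) Ψ (MF_iff g Ψ h1) (MF_iff g' Ψ h2)
  · rintro ⟨g, hg⟩ G hG
    rcases UF_iff g G hG with h1 | h1
    · left
      obtain ⟨K, hK, h2⟩ := own_nc h1
      obtain ⟨G', h3, h4⟩ := NF_ex g hK
      exact ⟨G', h3, h2.symm.trans h4⟩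
    · right
      obtain ⟨g', h2, h3, K, h4, h5⟩ := h.old g hg G h1
      obtain ⟨G', h6, h7⟩ := NF_ex g' h4
      exact ⟨⟨g', h2⟩, h3, G', h6, h5.symm.trans h7⟩
  · rintro ⟨g, hg⟩ hk
    obtain ⟨g', h1, h2, h3, h4⟩ := h.line g hg hk
    refine ⟨⟨g', h1⟩, h2, ?_, h4⟩
    refine (Phi_rot g).symm.trans ?_
    rw [← h3]
    exact Phi_rot g'
  · rintro ⟨g, hg⟩ ⟨g', hg'⟩ hk hk' hr
    apply Subtype.ext
    apply h.lineu g g' hg hg' hk hk'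
    exact (h.can g hg).rot (h.can g' hg') (((Phi_rot g).trans hr).trans (Phi_rot g').symm)

end Runs

end Pool.OddHC
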