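import Pool.Agent.Work.MP_8f87b2_h47.Runs4

/-!
# MP_8f87b2_co, HOLE 2: ranks, the general case of the interface

`csch_gen`: `CSch a InS` if `a` is not an even multiple of `N`.
-/

set_option autoImplicit false

namespace Pool.OddHC

namespace Runs

open Finset

variable {N : ℕ}

theorem Ze_sh [NeZero N] (c : ZMod N) (f : ZMod N → ℕ) : Ze (sh c f) = Ze f := by
  unfold Ze
  apply Finset.card_bij (fun z _ => z + c)
  · intro z hz
    rw [mem_filter] at hz ⊢
    exact ⟨mem_univ _, hz.2⟩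
  · intro z _ w _ h
    exact add_right_cancel h
  · intro z hz
    rw [mem_filter] at hz
    refine ⟨z - c, ?_, by ring⟩
    rw [mem_filter]
    refine ⟨mem_univ _, ?_⟩
    change f (z - c + c) = 0
    rw [sub_add_cancel]
    exact hz.2

theorem Ze_rot [NeZero N] {f g : ZMod N → ℕ} (h : Rot f g) : Ze f = Ze g := by
  obtain ⟨c, rfl⟩ := h
  exact (Ze_sh c f).symm

theorem Ze_pos [NeZero N] {f : ZMod N → ℕ} {x : ZMod N} (h : 1 ≤ f x) : Ze (ad f x) = Ze f := by
  unfold Ze
  congr 1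
  ext z
  rw [mem_filter, mem_filter]
  by_cases hz : z = x
  · subst hz
    rw [ad_self]
    constructor
    · rintro ⟨_, h1⟩; omega
    · rintro ⟨_, h1⟩; omega
  · rw [ad_ne _ hz]

theorem Ze_zero [NeZero N] {f : ZMod N → ℕ} {x : ZMod N} (h : f x = 0) : Ze (ad f x) + 1 = Ze f := by
  unfold Ze
  have h1 : (univ.filter fun z => f z = 0) = insert x (univ.filter fun z => ad f x z = 0) := by
    ext z
    rw [mem_filter, mem_insert, mem_filter]
    by_cases hz : z = x
    · subst hz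
      simp [h]
    · rw [ad_ne _ hz]
      simp [hz]
  rw [h1, card_insert_of_notMem]
  rw [mem_filter, ad_self]
  rintro ⟨_, h2⟩
  omega

theorem Ze_le [NeZero N] (f : ZMod N → ℕ) : Ze f ≤ N := by
  unfold Ze
  refine (card_le_univ _).trans ?_
  rw [ZMod.card]

theorem r_lt [NeZero N] (hN : 2 ≤ N) {g : Gd N} (hg : InS g) (hk : g.kd ≠ .nm) : g.r < N := by
  rcases hg.cases with h1 | ⟨q, l, h1, h2⟩
  · rcases h1.2.2 with ⟨_, _, h3⟩ | ⟨h3, _⟩
    · omega
    · exact absurd h3 hk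
  · have hq := h1.fst.lt
    obtain ⟨k, f, p, r⟩ := g
    simp only at hk ⊢
    cases k
    · simp only [RG] at h2
      omega
    · simp only [RG] at h2
      omega
    · simp only [RG] at h2
      omega
    · exact absurd rfl hk

theorem r_nm [NeZero N] {g : Gd N} (hg : InS g) (hk : g.kd = .nm) : g.r = N + Ze g.f := by
  rcases hg.cases with h1 | ⟨q, l, h1, h2⟩
  · rcases h1.2.2 with ⟨h3, _⟩ | ⟨_, _, h3⟩
    · rw [h3] at hk
      exact absurd hk (by decide)
    · exact h3
  · obtain ⟨k, f, p, r⟩ := g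
    simp only at hk
    subst hk
    simp only [RG] at h2
    exact h2.2.2

theorem r_bd [NeZero N] (hN : 2 ≤ N) {g : Gd N} (hg : InS g) : g.r < 2 * N + 1 := by
  by_cases hk : g.kd = .nm
  · rw [r_nm hg hk]
    have := Ze_le g.f
    omega
  · have := r_lt hN hg hk
    omega

/-- a strict minimum at 0 -/
theorem can_of_min [NeZero N] {K : ZMod N → ℕ} (h : ∀ z, z ≠ 0 → K 0 < K z) : Can K := by
  intro c
  by_cases hc : c = 0
  · left
    rw [hc, sh_zero]
  · right
    refine ⟨0, Nat.pos_of_ne_zero (NeZero.ne N), fun j hj => absurd hj (by omega), ?_⟩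
    rw [Nat.cast_zero, sh_apply, zero_add]
    exact h c hc

/-- **rank of the old word of `nm`** -/
theorem nm_rank [NeZero N] (hN : 3 ≤ N) {g g' : Gd N} (hg : InS g) (hk : g.kd = .nm) {G K : ZMod N → ℕ}
    (h : old g G) (hg' : InS g') (hK : K ∈ nc g') (hr : Rot K G) : g'.r < g.r := by
  have n1 := hg.nmd hk
  have hr1 := r_nm hg hk
  by_cases hk' : g'.kd = .nm
  swap
  · have := r_lt (by omega) hg' hk'
    omega
  have n2 := hg'.nmd hk'
  have hr2 := r_nm hg' hk'
  unfold old at h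
  rw [hk] at h
  change G = sh (g.p : ZMod N) (ad g.f ((g.p : ZMod N) - 1)) at h
  obtain ⟨j, hj, e⟩ := hK
  rw [hk'] at hj
  have hj' : j = g'.p := hj
  subst hj'
  have hZ : Ze G = Ze g'.f := by
    rw [← Ze_rot hr, e, Ze_pos n2.fst.pos]
  rcases Nat.eq_zero_or_pos g.p with h0 | h0
  · exfalso
    obtain ⟨h1, h2⟩ := n1.z0 h0
    rw [h0, Nat.cast_zero, sh_zero, zero_sub] at h
    have h10 : (1 : ZMod N) ≠ 0 := one_ne (by omega)
    have hm0 : (0 : ZMod N) ≠ -1 := (neg_ne_zero.2 h10).symm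
    have hG0 : G 0 = g.f 0 := by rw [h, ad_ne _ hm0]
    have hcan : Can G := by
      apply can_of_min
      intro z hz
      rw [hG0]
      have h3 := zt_gt h1 hz
      have h4 := ad_le g.f (-1) z
      rw [← h] at h4
      omega
    have hKc : Can K := by
      rw [e]
      have h3 := own_can (by omega) hg' (j := g'.p) (by rw [hk']; rfl)
      exact h3
    have hKG := hKc.rot hcan hr
    have hF : Fst K g'.p := by
      rw [e]
      exact n2.fst.ad_fst le_rfl
    have hF0 : Fst K 0 := zt_fst0 (by omega) (by rw [hKG, hG0]; omega)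
    have hp0 := hF.uniq hF0
    rw [hp0, Nat.cast_zero] at e
    have h5 := (n2.z0 hp0).2
    have h6 : K 0 = g'.f 0 + 1 := by rw [e, ad_self]
    rw [hKG, hG0] at h6
    omega
  · have h1 : g.f ((g.p : ZMod N) - 1) = 0 := by
      have := n1.fst.zero (g.p - 1) (by omega)
      rw [Nat.cast_sub h0, Nat.cast_one] at this
      exact this
    have h2 := Ze_zero h1
    have h3 : Ze G = Ze (ad g.f ((g.p : ZMod N) - 1)) := by rw [h, Ze_sh]
    omega

/-- **the class of an old word** -/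
theorem old_ex [NeZero N] (hN : 3 ≤ N) {g : Gd N} (hg : InS g) (hs : 1 ≤ ∑ z, g.f z) {G : ZMod N → ℕ}
    (h : old g G) : ∃ g' : Gd N, InS g' ∧ g'.r < g.r ∧ ∃ K ∈ nc g', Rot K G := by
  have hk : g.kd = .jm ∨ g.kd = .nm := by
    obtain ⟨k, f, p, r⟩ := g
    cases k
    · exact Or.inl rfl
    · exact h.elim
    · exact h.elim
    · exact Or.inr rfl
  rcases hk with hk | hk
  · have h' := h
    unfold old at h'
    rw [hk] at h'
    obtain ⟨h0, e⟩ := h'
    obtain ⟨q, g1, a1, a2, a3, a4, a5, a6, a7, a8⟩ := jm_old hg hk h0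
    refine ⟨g1, a4, a8, ad g.f ((g.p + 2 : ℕ) : ZMod N), ⟨g.p + 2, ?_, by rw [a5]⟩, ?_⟩
    · rcases a7 with a7 | a7 <;> rw [a7] <;> exact Or.inl a6.symm
    · rw [e]
      exact rot_sh _ _
  · obtain ⟨c, hc⟩ := exists_can G
    have hsum : ∑ z, G z = ∑ z, g.f z + 1 := by
      have h' := h
      unfold old at h'
      rw [hk] at h'
      change G = sh (g.p : ZMod N) (ad g.f ((g.p : ZMod N) - 1)) at h'
      rw [h', sh_sum, ad_sum]
    obtain ⟨g1, h1, h2⟩ := cover (by omega) hc (by rw [sh_sum]; omega)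
    exact ⟨g1, h1, nm_rank hN hg hk h h1 h2 (rot_sh c G).symm, _, h2, (rot_sh c G).symm⟩

/-- a repeated new word: only `nm` over a constant function with even value -/
theorem nonc_or [NeZero N] (hN : 2 ≤ N) {g : Gd N} (hg : InS g) {c j : ℕ} (h1 : ow g.kd g.p j c)
    (h2 : ow g.kd g.p j (c + 1))
    (e : sh (c : ZMod N) (ad g.f (j : ZMod N)) = sh ((c + 1 : ℕ) : ZMod N) (ad g.f (j : ZMod N))) :
    (∀ z, ad g.f (j : ZMod N) z = ad g.f (j : ZMod N) 0) ∧ ad g.f (j : ZMod N) 0 % 2 = 0 := by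
  push_cast at e
  have h3 := const_of_sh e.symm
  refine ⟨h3, ?_⟩
  rcases hg.cases with h4 | ⟨q, l, h4, h5⟩
  · obtain ⟨k, f, p, r⟩ := g
    obtain ⟨h6, h7, h8⟩ := h4
    simp only at h1 h2 h3 h6 h7 h8 ⊢
    subst h7
    rcases h8 with ⟨rfl, h8, _⟩ | ⟨rfl, h8, _⟩
    · exfalso
      simp only [ow] at h1 h2
      have hj : j = 1 := by omega
      subst hj
      rw [Nat.cast_one] at h3
      have h9 := h3 1
      rw [ad_self, ad_ne _ (one_ne hN).symm] at h9
      have := zt_gt h6 (one_ne hN)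
      omega
    · simp only [ow] at h1 h2
      have hj : j = 0 := by omega
      subst hj
      rw [Nat.cast_zero, ad_self]
      omega
  · exfalso
    have h6 := h5.pos h4.lq h1.cov
    have h7 := h4.fst.ad_fst h6.2
    have := h4.l1
    exact nonconst h7 (by omega) e.symm

theorem gap_ok [NeZero N] (hN : 2 ≤ N) {g : Gd N} (hg : InS g) :
    ((g.kd = .jy → 1 ≤ g.f ((g.p + 1 : ℕ) : ZMod N)) ∧
    (g.kd = .j5 → g.f ((g.p + 1 : ℕ) : ZMod N) = 0) ∧ (g.kd = .nm → 1 ≤ g.f (g.p : ZMod N))) := by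
  refine ⟨fun hk => ?_, fun hk => ?_, fun hk => (hg.nmd hk).fst.pos⟩
  · rcases hg.cases with h4 | ⟨q, l, h4, h5⟩
    · rw [h4.2.1, zero_add, Nat.cast_one]
      have := zt_gt h4.1 (one_ne hN)
      omega
    · obtain ⟨k, f, p, r⟩ := g
      simp only at hk h4 ⊢
      subst hk
      simp only [RG] at h5
      rw [h5.1]
      exact h4.fst.pos
  · rcases hg.cases with h4 | ⟨q, l, h4, h5⟩
    · rcases h4.2.2 with h6 | h6
      · rw [h6.1] at hk
        exact absurd hk (by decide)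
      · rw [h6.1] at hk
        exact absurd hk (by decide)
    · obtain ⟨k, f, p, r⟩ := g
      simp only at hk h4 ⊢
      subst hk
      simp only [RG] at h5
      exact h4.fst.zero _ (by omega)

theorem own_inj' [NeZero N] (hN : 2 ≤ N) {g : Gd N} (hg : InS g) {i j : ℕ} (hi : cov g.kd g.p i)
    (hj : cov g.kd g.p j) (e : ad g.f (i : ZMod N) = ad g.f (j : ZMod N)) : i = j := by
  rcases hg.cases with h4 | ⟨q, l, h4, h5⟩
  · obtain ⟨k, f, p, r⟩ := g
    obtain ⟨h6, h7, h8⟩ := h4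
    simp only at hi hj e h7 h8
    subst h7
    have key : ad f 0 = ad f 1 → False := by
      intro h
      have := congrFun h 0
      rw [ad_self, ad_ne _ (one_ne hN).symm] at this
      omega
    rcases h8 with ⟨rfl, _⟩ | ⟨rfl, _⟩
    · simp only [cov, zero_add] at hi hj
      rcases hi with rfl | rfl <;> rcases hj with rfl | rfl
      · rfl
      · rw [Nat.cast_zero, Nat.cast_one] at e
        exact (key e).elim
      · rw [Nat.cast_zero, Nat.cast_one] at e
        exact (key e.symm).elim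
      · rfl
    · simp only [cov] at hi hj
      omega
  · have h6 := h5.pos h4.lq hi
    have h7 := h5.pos h4.lq hj
    exact (ad_eq_ad h4.fst h4.fst h6.2 h7.2 e).1

theorem nc_sum [NeZero N] {g : Gd N} {K : ZMod N → ℕ} (h : K ∈ nc g) : ∑ z, K z = ∑ z, g.f z + 1 := by
  obtain ⟨j, _, rfl⟩ := h
  exact ad_sum _ _

/-- **the general case** -/
theorem csch_gen [NeZero N] (hN : 3 ≤ N) {a : ℕ} (ha : 2 ≤ a) (hns : ¬ ∃ m : ℕ, m % 2 = 0 ∧ a = N * m) :
    CSch (N := N) a (fun g => InS g ∧ ∑ z, g.f z + 1 = a) := by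
  constructor
  · exact fun g hg => hg.1.can
  · exact fun g hg => hg.2
  · exact fun g hg => r_bd (by omega) hg.1
  · exact fun g hg j hj => own_can (by omega) hg.1 hj
  · exact fun g hg i j hi hj e => own_inj' (by omega) hg.1 hi hj e
  · rintro g hg c j h1 h2 e
    obtain ⟨h3, h4⟩ := nonc_or (by omega) hg.1 h1 h2 e
    apply hns
    refine ⟨_, h4, ?_⟩
    rw [← hg.2, ← ad_sum g.f (j : ZMod N), sum_congr rfl (fun z _ => h3 z), sum_const, card_univ,
      ZMod.card, smul_eq_mul]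
  · exact fun g hg => gap_ok (by omega) hg.1
  · intro K hK hs
    obtain ⟨g, h1, h2⟩ := cover (by omega) hK (by omega)
    refine ⟨g, ⟨h1, ?_⟩, h2⟩
    rw [← nc_sum h2]
    exact hs
  · exact fun g g' hg hg' K h h' => uniq (by omega) hg.1 hg'.1 h h'
  · exact fun g g' hg hg' hne Ψ h h' => P_disj hg.1 hg'.1 hne h h'
  · exact fun g g' hg hg' hne Ψ h h' => M_disj hg.1 hg'.1 hne h h'
  · exact fun g g' hg hg' hne G h h' => U_disj hN hg.1 hg'.1 hne h h'
  · intro g hg G h
    obtain ⟨g', h1, h2, K, h3, h4⟩ := old_ex hN hg.1 (by have := hg.2; omega) h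
    refine ⟨g', ⟨h1, ?_⟩, h2, K, h3, h4⟩
    rw [← nc_sum h3, ← h4.sum]
    have hk : ∑ z, G z = ∑ z, g.f z + 1 := by
      obtain ⟨k, f, p, r⟩ := g
      cases k
      · rw [h.2, sh_sum, ad_sum]
      · exact h.elim
      · exact h.elim
      · have h' : G = sh (p : ZMod N) (ad f ((p : ZMod N) - 1)) := h
        rw [h', sh_sum, ad_sum]
    rw [hk]
    exact hg.2
  · intro g hg hk
    obtain ⟨g', h1, h2, h3, h4⟩ := line_exists hg.1 hk
    exact ⟨g', ⟨h1, by rw [h2]; exact hg.2⟩, h3, h2, h4⟩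
  · exact fun g g' hg hg' hk hk' hf => line_uniq hg.1 hg'.1 hf hk hk'

end Runs

end Pool.OddHC
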