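import Pool.Agent.Work.MP_8f87b2_base.Leg
import Pool.Agent.Work.MP_8f87b2_co.Perm

/-!
# MP_8f87b2_co: the rotation invariant 2-factor of a legal permutation (helper47)

`twoFactor_of_legal`: a legal permutation `π` of the words, in whose product `TT * π` every cycle of a moved word has at least
three words, gives a spanning 2-regular subgraph `H` of `O_k` which is invariant under the cyclic shift; every vertex is joined in
`H` to a shift of one of the vertices of a system of representatives of the cycles of `TT * π`.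
-/

set_option autoImplicit false

namespace Pool.OddHC

open Finset BinaryTree Equiv Pool.Agent.Work.MP_8f87b2_co

namespace TwoF

variable {k : ℕ}

/-- the vertex with the word `t` and the star `s` -/
def vx (t : X k) (s : ZMod (2 * k + 1)) : V k := ⟨io t s, io_card t s⟩

theorem vx_inj {t t' : X k} {s s' : ZMod (2 * k + 1)} (h : vx t s = vx t' s') : t = t' ∧ s = s' :=
  io_inj (congrArg Subtype.val h)

theorem vx_surj (A : V k) : ∃ (t : X k) (s : ZMod (2 * k + 1)), vx t s = A := by
  obtain ⟨t, s, h⟩ := io_surj A.2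
  exact ⟨t, s, Subtype.ext h⟩

theorem shift_vx (v : ZMod (2 * k + 1)) (x : X k) (s : ZMod (2 * k + 1)) :
    shift k v (vx x s) = vx x (s + v) := by
  apply Subtype.ext
  ext j
  rw [mem_shift]
  change j - v ∈ io x s ↔ j ∈ io x (s + v)
  rw [io_shift, mem_image]
  constructor
  · intro h
    exact ⟨j - v, h, by ring⟩
  · rintro ⟨i, hi, rfl⟩
    have : i + v - v = i := by ring
    rw [this]
    exact hi

/-- words and stars -/
noncomputable def eqv (k : ℕ) : X k × ZMod (2 * k + 1) ≃ V k :=
  Equiv.ofBijective (fun p => vx p.1 p.2) ⟨by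
    rintro ⟨a, b⟩ ⟨c, d⟩ h
    obtain ⟨h1, h2⟩ := vx_inj h
    exact Prod.ext h1 h2, by
    intro A
    obtain ⟨t, s, h⟩ := vx_surj A
    exact ⟨(t, s), h⟩⟩

theorem eqv_apply (t : X k) (s : ZMod (2 * k + 1)) : eqv k (t, s) = vx t s := rfl

/-- the permutation of the vertices -/
noncomputable def G (π : Perm (X k)) (z : X k → ZMod (2 * k + 1)) : Perm (V k) :=
  (eqv k).symm.trans ((Equiv.prodShear (TT * π) (fun w => Equiv.addRight (z w + Vo (π w)))).trans (eqv k))

theorem G_vx (π : Perm (X k)) (z : X k → ZMod (2 * k + 1)) (w : X k) (s : ZMod (2 * k + 1)) :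
    G π z (vx w s) = vx ((TT * π : Perm (X k)) w) (s + (z w + Vo (π w))) := by
  have h : (eqv k).symm (vx w s) = (w, s) := by
    rw [Equiv.symm_apply_eq, eqv_apply]
  unfold G
  rw [Equiv.trans_apply, Equiv.trans_apply, h, Equiv.prodShear_apply, eqv_apply]
  rfl

variable {π : Perm (X k)} {z : X k → ZMod (2 * k + 1)}

theorem G_shift (v : ZMod (2 * k + 1)) (A : V k) : G π z (shift k v A) = shift k v (G π z A) := by
  obtain ⟨t, s, rfl⟩ := vx_surj A
  rw [shift_vx, G_vx, G_vx, shift_vx]
  congr 1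
  ring

theorem G_adj (hk : 1 ≤ k) (hleg : ∀ w, Le w (π w) (z w)) (A : V k) : (oddGraph k).Adj A (G π z A) := by
  obtain ⟨w, s, rfl⟩ := vx_surj A
  have h1 := (hleg w).disj s
  rw [G_vx]
  have h2 : Disjoint (io w s) (io ((TT * π : Perm (X k)) w) (s + (z w + Vo (π w)))) := by
    rw [← add_assoc]
    exact h1
  refine ⟨?_, h2⟩
  intro h3
  have h4 : io w s = io ((TT * π : Perm (X k)) w) (s + (z w + Vo (π w))) := congrArg Subtype.val h3
  rw [← h4, disjoint_self_iff_empty] at h2
  have h5 := io_card w s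
  rw [h2, card_empty] at h5
  omega

theorem wd_start (t : X k) (hk : 1 ≤ k) : ∃ l, wd t.1 = true :: l := by
  have h1 := X_num t
  cases h : t.1 with
  | nil =>
    rw [h] at h1
    change 0 = k at h1
    omega
  | node u A B =>
    refine ⟨wd A ++ false :: wd B, ?_⟩
    cases u
    rw [wd_node]

theorem Vo_ne (hk : 1 ≤ k) (w : X k) : Vo w ≠ 0 := by
  intro h
  have h1 := TF_spec w 0
  rw [h, add_zero] at h1
  unfold io at h1
  have h2 := st_inj (sl_len _) (cw_len _) h1
  obtain ⟨l, hl⟩ := wd_start (TF w) hk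
  obtain ⟨l', hl'⟩ := wd_start w hk
  unfold sl cw at h2
  rw [hl, hl'] at h2
  simp at h2

theorem notMem_io (w : X k) (s : ZMod (2 * k + 1)) : s ∉ io w s := by
  unfold io
  rw [mem_st, sub_self, ZMod.val_zero]
  unfold sl
  simp

/-- two steps of `T` do not lead back -/
theorem TT_two (hk : 1 ≤ k) (w : X k) (s : ZMod (2 * k + 1))
    (h : vx (TT (TT w)) (s + Vo w + Vo (TT w)) = vx w s) : False := by
  have h0 : io (TT (TT w)) (s + Vo w + Vo (TT w)) = io w s := congrArg Subtype.val h
  have h1 := compl_cw w s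
  have h2 := compl_cw (TT w) (s + Vo w)
  rw [← TF_spec, ← TT_apply] at h1
  rw [← TF_spec, ← TT_apply, h0] at h2
  -- insert s B = univ \ A, insert (s + Vo w) A = univ \ B
  have h3 : s + Vo w ∈ univ \ io (TT w) (s + Vo w) := by
    rw [← h2]
    exact mem_insert_self _ _
  have h4 : s ∈ univ \ io (TT w) (s + Vo w) := by
    rw [mem_sdiff]
    refine ⟨mem_univ _, ?_⟩
    intro h5
    have h6 : io (TT w) (s + Vo w) = st (2 * k + 1) (cw w.1) s := by rw [TT_apply, TF_spec]
    rw [h6, mem_st, sub_self, ZMod.val_zero] at h5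
    unfold cw at h5
    simp at h5
  rw [← h2, mem_insert] at h4
  rcases h4 with h4 | h4
  · exact Vo_ne hk w (by
      have : s + 0 = s + Vo w := by rw [add_zero]; exact h4
      exact (add_left_cancel this).symm)
  · exact notMem_io w s h4

/-- two steps do not lead back -/
theorem G_two (hk : 1 ≤ k) (hz : ∀ w, π w = w → z w = 0)
    (hlong : ∀ w, π w ≠ w → ∃ u v, (TT * π).SameCycle w u ∧ (TT * π).SameCycle w v ∧ w ≠ u ∧ w ≠ v ∧ u ≠ v)
    (A : V k) : G π z (G π z A) ≠ A := by
  obtain ⟨w, s, rfl⟩ := vx_surj A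
  intro h
  rw [G_vx, G_vx] at h
  obtain ⟨h1, -⟩ := vx_inj h
  have hper : ∀ i : ℤ, ((TT * π : Perm (X k)) ^ i) w = w ∨ ((TT * π : Perm (X k)) ^ i) w = (TT * π : Perm (X k)) w := by
    have h2 : ((TT * π : Perm (X k)) ^ (2 : ℤ)) w = w := by
      have e : (2 : ℤ) = ((2 : ℕ) : ℤ) := rfl
      rw [e, zpow_natCast, pow_two, Perm.mul_apply]
      exact h1
    intro i
    obtain ⟨j, hj⟩ : ∃ j : ℤ, i = 2 * j ∨ i = 2 * j + 1 := ⟨i / 2, by omega⟩
    have h3 : ((TT * π : Perm (X k)) ^ (2 * j)) w = w := by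
      rw [zpow_mul]
      exact Perm.zpow_apply_eq_self_of_apply_eq_self h2 j
    rcases hj with rfl | rfl
    · exact Or.inl h3
    · right
      rw [add_comm, zpow_add, Perm.mul_apply, h3, zpow_one]
  have key : ∀ u, (TT * π).SameCycle w u → u = w ∨ u = (TT * π : Perm (X k)) w := by
    rintro u ⟨i, hi⟩
    rcases hper i with h2 | h2
    · exact Or.inl (hi.symm.trans h2)
    · exact Or.inr (hi.symm.trans h2)
  have two : ∀ x, (TT * π).SameCycle w x → π x = x := by
    intro x hx
    by_contra hne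
    obtain ⟨u, v, h2, h3, h4, h5, h6⟩ := hlong x hne
    have e1 := key x hx
    have e2 := key u (hx.trans h2)
    have e3 := key v (hx.trans h3)
    rcases e1 with e1 | e1 <;> rcases e2 with e2 | e2 <;> rcases e3 with e3 | e3
    · exact h4 (e1.trans e2.symm)
    · exact h4 (e1.trans e2.symm)
    · exact h5 (e1.trans e3.symm)
    · exact h6 (e2.trans e3.symm)
    · exact h6 (e2.trans e3.symm)
    · exact h5 (e1.trans e3.symm)
    · exact h4 (e1.trans e2.symm)
    · exact h4 (e1.trans e2.symm)
  have p1 : π w = w := two w (Perm.SameCycle.refl _ _)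
  have p2 : π (TT w) = TT w := by
    have h2 : (TT * π : Perm (X k)) w = TT w := by rw [Perm.mul_apply, p1]
    rw [← h2]
    exact two _ ⟨1, by rw [zpow_one]⟩
  have e1 : (TT * π : Perm (X k)) w = TT w := by rw [Perm.mul_apply, p1]
  have e2 : (TT * π : Perm (X k)) (TT w) = TT (TT w) := by rw [Perm.mul_apply, p2]
  rw [e1, e2, hz _ p1, hz _ p2, p1, p2, zero_add, zero_add] at h
  exact TT_two hk w s h

/-- the graph of a permutation -/
def HG (g : Perm (V k)) (hg : ∀ A, g A ≠ A) : SimpleGraph (V k) where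
  Adj A B := B = g A ∨ A = g B
  symm := ⟨fun _ _ h => h.symm⟩
  loopless := ⟨fun A h => by
    rcases h with h | h
    · exact hg A h.symm
    · exact hg A h.symm⟩

theorem HG_reach (g : Perm (V k)) (hg : ∀ A, g A ≠ A) (n : ℕ) (A : V k) :
    (HG g hg).Reachable A ((g ^ n) A) := by
  induction n with
  | zero => exact SimpleGraph.Reachable.refl _
  | succ n ih =>
    refine ih.trans ?_
    apply SimpleGraph.Adj.reachable
    left
    rw [pow_succ', Perm.mul_apply]

/-- **the 2-factor of a legal permutation** -/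
theorem twoFactor_of_legal (hk : 1 ≤ k) (hleg : ∀ w, Le w (π w) (z w)) (hz : ∀ w, π w = w → z w = 0)
    (hlong : ∀ w, π w ≠ w → ∃ u v, (TT * π).SameCycle w u ∧ (TT * π).SameCycle w v ∧ w ≠ u ∧ w ≠ v ∧ u ≠ v)
    (R : Finset (X k)) (hR : ∀ w, ∃ r ∈ R, (TT * π).SameCycle w r) :
    ∃ H : SimpleGraph (V k), H ≤ oddGraph k ∧ (∀ A, (H.neighborSet A).ncard = 2) ∧
      (∀ A B, H.Adj (shift k 1 A) (shift k 1 B) ↔ H.Adj A B) ∧
      ∃ S : Finset (V k), S.card ≤ R.card ∧ ∀ A, ∃ r ∈ S, ∃ t, H.Reachable A (shift k t r) := by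
  classical
  have hadj := G_adj (z := z) hk hleg
  have hne : ∀ A, G π z A ≠ A := fun A h => (hadj A).ne h.symm
  refine ⟨HG (G π z) hne, ?_, ?_, ?_, R.image (fun r => vx r 0), card_image_le, ?_⟩
  · intro A B h
    rcases h with h | h
    · rw [h]
      exact hadj A
    · rw [h]
      exact (hadj B).symm
  · intro A
    have e : (HG (G π z) hne).neighborSet A = {G π z A, (G π z).symm A} := by
      ext B
      rw [SimpleGraph.mem_neighborSet]
      constructor
      · rintro (h | h)
        · exact Or.inl h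
        · right
          rw [h]
          exact ((G π z).symm_apply_apply B).symm
      · rintro (h | h)
        · exact Or.inl h
        · right
          rw [Set.mem_singleton_iff] at h
          rw [h, Equiv.apply_symm_apply]
    rw [e, Set.ncard_pair]
    intro h
    have h1 := congrArg (G π z) h
    rw [Equiv.apply_symm_apply] at h1
    exact G_two hk hz hlong A h1
  · intro A B
    have h1 : ∀ C D : V k, shift k 1 D = G π z (shift k 1 C) ↔ D = G π z C := by
      intro C D
      rw [G_shift]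
      exact (shift k 1).injective.eq_iff
    constructor
    · rintro (h | h)
      · exact Or.inl ((h1 _ _).1 h)
      · exact Or.inr ((h1 _ _).1 h)
    · rintro (h | h)
      · exact Or.inl ((h1 _ _).2 h)
      · exact Or.inr ((h1 _ _).2 h)
  · intro A
    obtain ⟨w, s, rfl⟩ := vx_surj A
    obtain ⟨r, hr, hs⟩ := hR w
    obtain ⟨n, -, hn⟩ := hs.exists_pow_eq'
    have key : ∀ m : ℕ, ∃ t, ((G π z) ^ m) (vx w s) = vx (((TT * π : Perm (X k)) ^ m) w) t := by
      intro m
      induction m with
      | zero => exact ⟨s, rfl⟩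
      | succ m ih =>
        obtain ⟨t, ht⟩ := ih
        rw [pow_succ', Perm.mul_apply, ht, G_vx, pow_succ', Perm.mul_apply]
        exact ⟨_, rfl⟩
    obtain ⟨t, ht⟩ := key n
    refine ⟨vx r 0, mem_image_of_mem _ hr, t, ?_⟩
    rw [shift_vx, zero_add]
    have h2 := HG_reach (G π z) hne n (vx w s)
    rw [ht, hn] at h2
    exact h2

/-- the number of cycles -/
theorem card_comp {H : SimpleGraph (V k)} {S : Finset (V k)}
    (h : ∀ A, ∃ r ∈ S, ∃ t, H.Reachable A (shift k t r)) :
    Nat.card H.ConnectedComponent ≤ (2 * k + 1) * S.card := by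
  classical
  have h1 : Function.Surjective (fun p : ZMod (2 * k + 1) × S => H.connectedComponentMk (shift k p.1 p.2.1)) := by
    intro c
    obtain ⟨A, rfl⟩ := c.exists_rep
    obtain ⟨r, hr, t, ht⟩ := h A
    refine ⟨(t, ⟨r, hr⟩), ?_⟩
    exact (SimpleGraph.ConnectedComponent.eq.2 ht).symm
  have h2 := Nat.card_le_card_of_surjective _ h1
  rw [Nat.card_eq_fintype_card (α := ZMod (2 * k + 1) × S), Fintype.card_prod, ZMod.card, Fintype.card_coe] at h2
  exact h2

end TwoF

end Pool.OddHC
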